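import Pool.Agent.Y52.SJ.Stm2

/-!
# Project SJ, third group: unconditional convex domains (dimension free bound)
-/

set_option autoImplicit false

namespace Pool.Agent.Y52.SJ

/-- Closed under decreasing the absolute values of the coordinates. -/
def Solid {m : ℕ} (T : Set (Fin m → ℝ)) : Prop :=
  ∀ x ∈ T, ∀ y : Fin m → ℝ, (∀ i, |y i| ≤ |x i|) → y ∈ T

/-- A compact unconditional convex body (solid, with a point with positive coordinates). -/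
structure Body {m : ℕ} (T : Set (Fin m → ℝ)) : Prop where
  cpt : IsCompact T
  conv : Convex ℝ T
  solid : Solid T
  pos : ∃ x ∈ T, ∀ i, 0 < x i

/-- LOZ: the Lozanovskii factorisation is continuous. -/
def S_LOZ : Prop := ∀ (m : ℕ) (T : Set (Fin m → ℝ)), Body T →
  ∃ X : (Fin m → ℝ) → (Fin m → ℝ), ContinuousOn X {I | ∀ i, 0 < I i} ∧
    ∀ I : Fin m → ℝ, (∀ i, 0 < I i) → X I ∈ T ∧ (∀ i, 0 < X I i) ∧
      (∀ t ∈ T, (∀ i, 0 < t i) → ∑ i, I i * Real.log (t i) ≤ ∑ i, I i * Real.log (X I i)) ∧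
      ∀ t ∈ T, ∑ i, I i / X I i * t i ≤ ∑ i, I i

/-- POT: the smooth potential. -/
def S_POT : Prop := ∀ (m : ℕ) (T : Set (Fin m → ℝ)), Body T → ∀ ε : ℝ, 0 < ε →
  ∃ V : (Fin m → ℝ) → ℝ, ContDiffOn ℝ ((⊤ : ℕ∞) : WithTop ℕ∞) V {I | ∀ i, 0 < I i} ∧
    ∀ I : Fin m → ℝ, (∀ i, 0 < I i) →
      (fun i => Real.exp (fderiv ℝ V I (Pi.single i 1))) ∈ T ∧
      ∀ t ∈ T, ∑ i, I i * Real.exp (-(fderiv ℝ V I (Pi.single i 1))) * t i ≤ ∑ i, I i + ε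

/-- MOL: the smooth potential from the Lozanovskii factorisation by mollification. -/
def S_MOL : Prop := S_LOZ → S_POT

/-- The explicit symplectic map of the plane into the strip (isotonic oscillator). -/
noncomputable def sg (g : ℝ) (z : ℝ × ℝ) : ℝ × ℝ :=
  (1 / 2 - Real.arctan (Real.sqrt (z.1 ^ 2 + z.2 ^ 2 + 2 * g) * z.2 /
      (z.1 ^ 2 + z.2 ^ 2 + g + Real.sqrt (z.1 ^ 2 + z.2 ^ 2 + 2 * g) * z.1)) / Real.pi,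
    Real.pi * (z.1 ^ 2 + z.2 ^ 2 + g) - Real.pi * g ^ 2 /
      (2 * (z.1 ^ 2 + z.2 ^ 2 + g + Real.sqrt (z.1 ^ 2 + z.2 ^ 2 + 2 * g) * z.1)))

/-- TRA: properties of `sg` (Traynor trick). -/
def S_TRA : Prop := ∀ g : ℝ, 0 < g → ContDiff ℝ ((⊤ : ℕ∞) : WithTop ℕ∞) (sg g) ∧
  Function.Injective (sg g) ∧ ∀ z : ℝ × ℝ, 0 < (sg g z).1 ∧ (sg g z).1 < 1 ∧ 0 < (sg g z).2 ∧
    (sg g z).2 < Real.pi * (z.1 ^ 2 + z.2 ^ 2) + Real.pi * g ∧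
    ∀ u v : ℝ × ℝ, (fderiv ℝ (sg g) z u).1 * (fderiv ℝ (sg g) z v).2 -
      (fderiv ℝ (sg g) z u).2 * (fderiv ℝ (sg g) z v).1 = u.1 * v.2 - u.2 * v.1

/-- PRD: product of planar symplectic maps. -/
def S_PRD : Prop := ∀ (σ : ℝ × ℝ → ℝ × ℝ), ContDiff ℝ ((⊤ : ℕ∞) : WithTop ℕ∞) σ →
  Function.Injective σ → (∀ z u v : ℝ × ℝ, (fderiv ℝ σ z u).1 * (fderiv ℝ σ z v).2 -
      (fderiv ℝ σ z u).2 * (fderiv ℝ σ z v).1 = u.1 * v.2 - u.2 * v.1) → ∀ m : ℕ,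
  ContDiff ℝ ((⊤ : ℕ∞) : WithTop ℕ∞) (fun z : (Fin m → ℝ) × (Fin m → ℝ) =>
    ((fun k => (σ (z.1 k, z.2 k)).1, fun k => (σ (z.1 k, z.2 k)).2) :
      (Fin m → ℝ) × (Fin m → ℝ))) ∧
  Function.Injective (fun z : (Fin m → ℝ) × (Fin m → ℝ) =>
    ((fun k => (σ (z.1 k, z.2 k)).1, fun k => (σ (z.1 k, z.2 k)).2) :
      (Fin m → ℝ) × (Fin m → ℝ))) ∧
  ∀ z u v : (Fin m → ℝ) × (Fin m → ℝ),
    std (fderiv ℝ (fun z : (Fin m → ℝ) × (Fin m → ℝ) =>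
      ((fun k => (σ (z.1 k, z.2 k)).1, fun k => (σ (z.1 k, z.2 k)).2) :
      (Fin m → ℝ) × (Fin m → ℝ))) z u)
    (fderiv ℝ (fun z : (Fin m → ℝ) × (Fin m → ℝ) =>
      ((fun k => (σ (z.1 k, z.2 k)).1, fun k => (σ (z.1 k, z.2 k)).2) :
      (Fin m → ℝ) × (Fin m → ℝ))) z v) = std u v

/-- The shear by the gradient of `V` in logarithmic coordinates. -/
noncomputable def shr {m : ℕ} (V : (Fin m → ℝ) → ℝ) (z : (Fin m → ℝ) × (Fin m → ℝ)) :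
    (Fin m → ℝ) × (Fin m → ℝ) :=
  (fun k => Real.exp (z.1 k - 1 + fderiv ℝ V z.2 (Pi.single k 1)),
    fun k => z.2 k * Real.exp (-(z.1 k) - fderiv ℝ V z.2 (Pi.single k 1)))

/-- SHR: `shr V` is smooth, injective and multiplies the symplectic form by `exp (-1)`. -/
def S_SHR : Prop := ∀ (m : ℕ) (V : (Fin m → ℝ) → ℝ),
  ContDiffOn ℝ ((⊤ : ℕ∞) : WithTop ℕ∞) V {I | ∀ i, 0 < I i} →
  ContDiffOn ℝ ((⊤ : ℕ∞) : WithTop ℕ∞) (shr V) {z | ∀ i, 0 < z.2 i} ∧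
  Set.InjOn (shr V) {z | ∀ i, 0 < z.2 i} ∧
  ∀ z : (Fin m → ℝ) × (Fin m → ℝ), (∀ i, 0 < z.2 i) → ∀ u v : (Fin m → ℝ) × (Fin m → ℝ),
    std (fderiv ℝ (shr V) z u) (fderiv ℝ (shr V) z v) = Real.exp (-1) * std u v

/-- EMB: a ball in the product of a body and a multiple of its polar. -/
def S_EMB : Prop := S_POT → S_TRA → S_PRD → S_SHR → ∀ (n : ℕ) (S : Set (Fin (n + 1) → ℝ)),
  Body S → ∀ (K : Set ((Fin (n + 1) → ℝ) × (Fin (n + 1) → ℝ))) (α β : ℝ), 0 < α → 0 < β →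
  (∀ q ∈ S, ∀ p : Fin (n + 1) → ℝ, (∀ t ∈ S, ∑ i, t i * p i ≤ 1) → (α • q, β • p) ∈ K) →
  ENNReal.ofReal (α * β * Real.exp (-1)) ≤ gromovWidth K

/-- Invariance under all reflections in coordinate hyperplanes. -/
def Uncond {m : ℕ} (K : Set ((Fin m → ℝ) × (Fin m → ℝ))) : Prop :=
  ∀ z ∈ K, ∀ a b : Fin m → ℝ, (∀ i, |a i| = 1) → (∀ i, |b i| = 1) →
    ((fun i => a i * z.1 i, fun i => b i * z.2 i) : (Fin m → ℝ) × (Fin m → ℝ)) ∈ K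

/-- SEC: the sections of an unconditional convex domain. -/
def S_SEC : Prop := ∀ (m : ℕ) (K : Set ((Fin m → ℝ) × (Fin m → ℝ))), IsOpen K → Convex ℝ K →
  Bornology.IsBounded K → K.Nonempty → Uncond K → ∃ S T : Set (Fin m → ℝ), Body S ∧ Body T ∧
    (∀ z ∈ K, z.1 ∈ S ∧ z.2 ∈ T) ∧
    ∀ q ∈ S, ∀ p ∈ T, ∀ r : ℝ, 0 < r → r < 1 / 2 → (r • q, r • p) ∈ K

/-- POL: the largest pairing of the polars. -/
def S_POL : Prop := ∀ (m : ℕ), 0 < m → ∀ S T : Set (Fin m → ℝ), Body S → Body T →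
  ∃ (u v : Fin m → ℝ) (h : ℝ), 0 < h ∧ ∑ i, u i * v i = h ∧ (∀ q ∈ S, (∑ i, u i * q i) ^ 2 ≤ 1) ∧
    (∀ p ∈ T, (∑ i, v i * p i) ^ 2 ≤ 1) ∧
    ∀ p : Fin m → ℝ, (∀ t ∈ S, ∑ i, t i * p i ≤ 1) → h⁻¹ • p ∈ T

end Pool.Agent.Y52.SJ
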