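import Pool.Agent.Y52.SJ.Stm

/-!
# Project SJ: assembly in an abstract symplectic Euclidean space
-/

set_option autoImplicit false

namespace Pool.Agent.Y52.SJ

section
variable {V : Type} [NormedAddCommGroup V] [InnerProductSpace ℝ V]

lemma om_add_left (J : V →L[ℝ] V) (x y z : V) : om J (x + y) z = om J x z + om J y z := by
  simp [om, inner_add_left]

lemma om_smul_left (J : V →L[ℝ] V) (c : ℝ) (x z : V) : om J (c • x) z = c * om J x z := by
  simp [om, inner_smul_left]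

lemma om_smul_right (J : V →L[ℝ] V) (c : ℝ) (x z : V) : om J x (c • z) = c * om J x z := by
  simp [om, inner_smul_right]

lemma om_neg_left (J : V →L[ℝ] V) (x z : V) : om J (-x) z = - om J x z := by
  simp [om]

lemma om_sum_sum (J : V →L[ℝ] V) {m : ℕ} (a b : Fin m → ℝ) (u : Fin m → V) :
    om J (∑ i, a i • u i) (∑ j, b j • u j) = ∑ i, ∑ j, a i * b j * om J (u i) (u j) := by
  unfold om
  rw [map_sum, sum_inner]
  refine Finset.sum_congr rfl fun i _ => ?_
  rw [inner_sum]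
  refine Finset.sum_congr rfl fun j _ => ?_
  rw [map_smul, inner_smul_left, inner_smul_right]
  simp only [conj_trivial]
  ring

lemma conf_comp {J P Q : V →L[ℝ] V} {s t : ℝ} (hP : Conf J P s) (hQ : Conf J Q t) :
    Conf J (P.comp Q) (s * t) := by
  intro x y
  simp only [ContinuousLinearMap.comp_apply]
  rw [hP, hQ]
  ring

lemma conf_smul {J P : V →L[ℝ] V} {s : ℝ} (c : ℝ) (hP : Conf J P s) :
    Conf J (c • P) (c ^ 2 * s) := by
  intro x y
  show om J (c • P x) (c • P y) = _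
  rw [om_smul_left, om_smul_right, hP]
  ring

/-- The contact measure. -/
lemma contact (hVAR : S_VAR) (hHULL : S_HULL) (hLAG : S_LAG) (hPAIR : S_PAIR)
    [FiniteDimensional ℝ V] [Nontrivial V] (J : V →L[ℝ] V) (hJ : IsCS J) (C : Set V)
    (hC : NF J C) :
    ∃ (m : ℕ) (c : Fin m → ℝ) (u : Fin m → V), (∀ i, 0 ≤ c i) ∧ ∑ i, c i = 1 ∧
      (∀ i, ‖u i‖ = 1) ∧ (∀ i, ∀ x ∈ C, inner ℝ x (u i) ≤ 1) ∧ ∑ i, c i • u i = 0 ∧
      1 ≤ (Module.finrank ℝ V : ℝ) * ∑ i, ∑ j, c i * c j * (om J (u i) (u j)) ^ 2 := by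
  set U : Set V := {u | ‖u‖ = 1 ∧ ∀ x ∈ C, inner ℝ x u ≤ 1} with hU
  have hUc : IsCompact U := by
    refine Metric.isCompact_of_isClosed_isBounded ?_ ?_
    · have h1 : IsClosed {u : V | ‖u‖ = 1} := isClosed_eq continuous_norm continuous_const
      have h2 : IsClosed {u : V | ∀ x ∈ C, inner ℝ x u ≤ 1} := by
        have : {u : V | ∀ x ∈ C, inner ℝ x u ≤ 1} = ⋂ x ∈ C, {u : V | inner ℝ x u ≤ 1} := by
          ext u; simp
        rw [this]
        exact isClosed_biInter fun x _ =>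
          isClosed_le (continuous_const.inner continuous_id) continuous_const
      exact h1.inter h2
    · refine (Metric.isBounded_closedBall (x := (0 : V)) (r := 1)).subset ?_
      intro u hu
      simp [hu.1]
  obtain ⟨m, c, u, hc, hsum, hu, h0, hX⟩ := hLAG hHULL V J U hUc (by
    intro X b hX
    obtain ⟨u, h1, h2, h3⟩ := hVAR V J hJ C hC X b hX
    exact ⟨u, ⟨h1, h2⟩, h3⟩)
  exact ⟨m, c, u, hc, hsum, fun i => (hu i).1, fun i => (hu i).2, h0,
    hPAIR V J hJ m c u hc hsum (fun i => (hu i).1) hX⟩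

/-- Two functionals for a general convex body in normal position. -/
lemma two_general (hVAR : S_VAR) (hHULL : S_HULL) (hLAG : S_LAG) (hPAIR : S_PAIR)
    (hGRO : S_GRO) [FiniteDimensional ℝ V] [Nontrivial V] (J : V →L[ℝ] V) (hJ : IsCS J)
    (C : Set V) (hC : NF J C) :
    ∃ v v' : V, 0 < om J v v' ∧ 1 ≤ (Module.finrank ℝ V : ℝ) * (29 / 16) * om J v v' ∧
      ∀ x ∈ C, inner ℝ x v ^ 2 ≤ 4 ∧ inner ℝ x v' ^ 2 ≤ 4 := by
  obtain ⟨m, c, u, hc, hsum, hu1, huC, h0, hp⟩ := contact hVAR hHULL hLAG hPAIR J hJ C hC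
  obtain ⟨ε, δ, hε, hδ, hle⟩ := hGRO V m (fun i j => c i * c j * om J (u i) (u j))
    (fun i => J (u i)) u (fun i => by
      have h := hJ.2 (u i) (u i)
      rw [real_inner_self_eq_norm_sq, real_inner_self_eq_norm_sq, hu1 i] at h
      nlinarith [norm_nonneg (J (u i))]) hu1
  have e1 : ∑ i, ∑ j, c i * c j * om J (u i) (u j) * inner ℝ (J (u i)) (u j)
      = ∑ i, ∑ j, c i * c j * (om J (u i) (u j)) ^ 2 := by
    refine Finset.sum_congr rfl fun i _ => Finset.sum_congr rfl fun j _ => ?_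
    have : inner ℝ (J (u i)) (u j) = om J (u i) (u j) := rfl
    rw [this]; ring
  rw [e1] at hle
  have e2 : ∑ i, ∑ j, c i * c j * om J (u i) (u j) * ε i * δ j
      = om J (∑ i, (c i * ε i) • u i) (∑ j, (c j * δ j) • u j) := by
    rw [om_sum_sum]
    refine Finset.sum_congr rfl fun i _ => Finset.sum_congr rfl fun j _ => ?_
    ring
  rw [e2] at hle
  have hd : (0 : ℝ) ≤ (Module.finrank ℝ V : ℝ) := Nat.cast_nonneg _
  have key : ∀ (ε : Fin m → ℝ), (∀ i, |ε i| = 1) → ∀ x ∈ C,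
      inner ℝ x (∑ i, (c i * ε i) • u i) ^ 2 ≤ 4 := by
    intro ε hε x hx
    have h1 : |inner ℝ x (∑ i, (c i * ε i) • u i)| ≤ 2 := by
      rw [inner_sum]
      refine (Finset.abs_sum_le_sum_abs _ _).trans ?_
      have h2 : ∀ i, |inner ℝ x ((c i * ε i) • u i)| ≤ c i * (2 - inner ℝ x (u i)) := by
        intro i
        rw [inner_smul_right, abs_mul, abs_mul, hε i, mul_one, abs_of_nonneg (hc i)]
        refine mul_le_mul_of_nonneg_left ?_ (hc i)
        have := huC i x hx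
        rw [abs_le]
        constructor <;> linarith
      refine (Finset.sum_le_sum fun i _ => h2 i).trans ?_
      have h3 : ∑ i, c i * (2 - inner ℝ x (u i)) = 2 * ∑ i, c i - inner ℝ x (∑ i, c i • u i) := by
        rw [inner_sum, Finset.mul_sum, ← Finset.sum_sub_distrib]
        refine Finset.sum_congr rfl fun i _ => ?_
        rw [inner_smul_right]; ring
      rw [h3, hsum, h0, inner_zero_right]
      norm_num
    have := abs_le.1 h1
    nlinarith [this.1, this.2]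
  refine ⟨_, _, ?_, ?_, fun x hx => ⟨key ε hε x hx, key δ hδ x hx⟩⟩
  · by_contra hneg
    push Not at hneg
    have : (Module.finrank ℝ V : ℝ) * ∑ i, ∑ j, c i * c j * (om J (u i) (u j)) ^ 2 ≤ 0 := by
      refine mul_nonpos_of_nonneg_of_nonpos hd (hle.trans ?_)
      linarith
    linarith
  · calc (1 : ℝ) ≤ _ := hp
      _ ≤ (Module.finrank ℝ V : ℝ) * (29 / 16 *
          om J (∑ i, (c i * ε i) • u i) (∑ j, (c j * δ j) • u j)) :=
        mul_le_mul_of_nonneg_left hle hd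
      _ = _ := by ring

/-- Two functionals for a symmetric convex body in normal position. -/
lemma two_symm (hVAR : S_VAR) (hHULL : S_HULL) (hLAG : S_LAG) (hPAIR : S_PAIR)
    [FiniteDimensional ℝ V] [Nontrivial V] (J : V →L[ℝ] V) (hJ : IsCS J)
    (C : Set V) (hC : NF J C) (hs : ∀ x ∈ C, -x ∈ C) :
    ∃ v v' : V, 0 < om J v v' ∧ 1 ≤ (Module.finrank ℝ V : ℝ) * om J v v' ^ 2 ∧
      ∀ x ∈ C, inner ℝ x v ^ 2 ≤ 1 ∧ inner ℝ x v' ^ 2 ≤ 1 := by
  obtain ⟨m, c, u, hc, hsum, hu1, huC, h0, hp⟩ := contact hVAR hHULL hLAG hPAIR J hJ C hC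
  have hd : (0 : ℝ) ≤ (Module.finrank ℝ V : ℝ) := Nat.cast_nonneg _
  have hex : ∃ i j, 1 ≤ (Module.finrank ℝ V : ℝ) * (om J (u i) (u j)) ^ 2 := by
    by_contra hcon
    push Not at hcon
    have h1 : ∑ i, ∑ j, c i * c j * ((Module.finrank ℝ V : ℝ) * (om J (u i) (u j)) ^ 2) <
        ∑ i, ∑ j, c i * c j := by
      have hne : ∃ i, 0 < c i := by
        by_contra h
        push Not at h
        have : ∑ i, c i ≤ 0 := Finset.sum_nonpos fun i _ => h i
        linarith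
      obtain ⟨i0, hi0⟩ := hne
      refine Finset.sum_lt_sum (fun i _ => Finset.sum_le_sum fun j _ => ?_) ⟨i0, Finset.mem_univ _, ?_⟩
      · have := hcon i j
        have h2 := mul_nonneg (hc i) (hc j)
        nlinarith
      · refine Finset.sum_lt_sum (fun j _ => ?_) ⟨i0, Finset.mem_univ _, ?_⟩
        · have := hcon i0 j
          have h2 := mul_nonneg (hc i0) (hc j)
          nlinarith
        · have := hcon i0 i0
          have h2 := mul_pos hi0 hi0
          nlinarith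
    have h2 : ∑ i, ∑ j, c i * c j = 1 := by
      rw [← Finset.sum_mul_sum, hsum]; norm_num
    have h3 : ∑ i, ∑ j, c i * c j * ((Module.finrank ℝ V : ℝ) * (om J (u i) (u j)) ^ 2)
        = (Module.finrank ℝ V : ℝ) * ∑ i, ∑ j, c i * c j * (om J (u i) (u j)) ^ 2 := by
      rw [Finset.mul_sum]
      refine Finset.sum_congr rfl fun i _ => ?_
      rw [Finset.mul_sum]
      refine Finset.sum_congr rfl fun j _ => ?_
      ring
    rw [h2, h3] at h1
    linarith
  obtain ⟨i, j, hij⟩ := hex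
  have hb : ∀ i, ∀ x ∈ C, inner ℝ x (u i) ^ 2 ≤ 1 := by
    intro i x hx
    have h1 := huC i x hx
    have h2 := huC i (-x) (hs x hx)
    rw [inner_neg_left] at h2
    nlinarith
  rcases lt_trichotomy (om J (u i) (u j)) 0 with h | h | h
  · refine ⟨-u i, u j, ?_, ?_, fun x hx => ⟨?_, hb j x hx⟩⟩
    · rw [om_neg_left]; linarith
    · rw [om_neg_left, neg_sq]; exact hij
    · rw [inner_neg_right, neg_sq]; exact hb i x hx
  · rw [h] at hij
    norm_num at hij
  · exact ⟨u i, u j, h, hij, fun x hx => ⟨hb i x hx, hb j x hx⟩⟩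

/-- From two functionals to a symplectic map. -/
lemma witt_map (hWITT : S_WITT) [FiniteDimensional ℝ V] (J : V →L[ℝ] V) (hJ : IsCS J)
    (e f : V) (hef : om J e f = 1) (v v' : V) (ha : 0 < om J v v') :
    ∃ ψ : V →L[ℝ] V, Conf J ψ 1 ∧ ∀ x, (om J (ψ x) e) ^ 2 = (om J v v')⁻¹ * inner ℝ x v ^ 2 ∧
      (om J (ψ x) f) ^ 2 = (om J v v')⁻¹ * inner ℝ x v' ^ 2 := by
  set a := om J v v' with hadef
  set q := (Real.sqrt a)⁻¹ with hq
  have hq2 : q ^ 2 = a⁻¹ := by
    rw [hq, inv_pow, Real.sq_sqrt ha.le]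
  have hww : om J (q • J v) (q • J v') = 1 := by
    rw [om_smul_left, om_smul_right]
    have : om J (J v) (J v') = a := by
      rw [hadef]; unfold om; rw [hJ.2]
    rw [this, ← mul_assoc, ← sq, hq2]
    exact inv_mul_cancel₀ ha.ne'
  obtain ⟨ψ, h1, h2, h3⟩ := hWITT V J hJ _ _ e f hww hef
  refine ⟨ψ, h1, fun x => ⟨?_, ?_⟩⟩
  · rw [← h2, h1 x, om_smul_right]
    have : om J x (J v) = inner ℝ x v := by unfold om; rw [hJ.2]
    rw [this, ← hq2]; ring
  · rw [← h3, h1 x, om_smul_right]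
    have : om J x (J v') = inner ℝ x v' := by unfold om; rw [hJ.2]
    rw [this, ← hq2]; ring

/-- The open ball goes into the open convex set. -/
lemma ball_open [FiniteDimensional ℝ V] (K : Set V) (hKo : IsOpen K) (hKc : Convex ℝ K)
    (hKn : K.Nonempty) (P Q : V →L[ℝ] V) (b : V) (hQP : ∀ x, Q (P x) = x) (hPQ : ∀ x, P (Q x) = x)
    (h : ∀ x, ‖x‖ ≤ 1 → b + P x ∈ closure K) (x : V) (hx : ‖x‖ < 1) : b + P x ∈ K := by
  have h1 : interior (closure K) = K := by
    rw [hKc.interior_closure_eq_interior_of_nonempty_interior (by rwa [hKo.interior_eq]),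
      hKo.interior_eq]
  rw [← h1, mem_interior]
  refine ⟨{y | ‖Q (y - b)‖ < 1}, ?_, ?_, ?_⟩
  · intro y hy
    have := h (Q (y - b)) (le_of_lt hy)
    rwa [hPQ, add_sub_cancel] at this
  · exact isOpen_lt (by fun_prop) continuous_const
  · simp [hQP, hx]

/-- Affine theorem, given the two functionals. -/
lemma affine_of_two (hNFP : S_NFP) (hWITT : S_WITT)
    [FiniteDimensional ℝ V] [Nontrivial V] (J : V →L[ℝ] V) (hJ : IsCS J) (K : Set V)
    (hKo : IsOpen K) (hKc : Convex ℝ K) (hKb : Bornology.IsBounded K) (hKn : K.Nonempty)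
    (e f : V) (hef : om J e f = 1) (P : V →L[ℝ] V) (b : V) (s B : ℝ) (hs : 0 < s)
    (hP : Conf J P s) (hball : ∀ x, ‖x‖ ≤ 1 → b + P x ∈ closure K)
    (hmax : ∀ (P' : V →L[ℝ] V) (b' : V) (s' : ℝ), Conf J P' s' →
      (∀ x, ‖x‖ ≤ 1 → b' + P' x ∈ closure K) → s' ≤ s)
    (htwo : NF J {x | b + P x ∈ closure K} → ∃ v v' : V, 0 < om J v v' ∧
      ∀ x ∈ {x | b + P x ∈ closure K}, inner ℝ x v ^ 2 + inner ℝ x v' ^ 2 ≤ B * om J v v') :
    ∃ (P : V →L[ℝ] V) (b : V) (s : ℝ) (ψ : V →L[ℝ] V), 0 < s ∧ Conf J P s ∧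
      (∀ x, ‖x‖ < 1 → b + P x ∈ K) ∧ Conf J ψ 1 ∧
      ∀ x ∈ K, (om J (ψ (x - b)) e) ^ 2 + (om J (ψ (x - b)) f) ^ 2 ≤ B * s := by
  obtain ⟨hNF, Q, hQ, hQP, hPQ⟩ := hNFP V J hJ (closure K) hKb.isCompact_closure hKc.closure
    P b s hs hP hball hmax
  obtain ⟨v, v', ha, hvv⟩ := htwo hNF
  obtain ⟨ψ, hψ, hψ2⟩ := witt_map hWITT J hJ e f hef v v' ha
  refine ⟨P, b, s, (Real.sqrt s) • (ψ.comp Q), hs, hP,
    fun x hx => ball_open K hKo hKc hKn P Q b hQP hPQ hball x hx, ?_, ?_⟩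
  · have h := conf_smul (Real.sqrt s) (conf_comp hψ hQ)
    rw [Real.sq_sqrt hs.le, one_mul, mul_inv_cancel₀ hs.ne'] at h
    exact h
  · intro x hx
    have hy : Q (x - b) ∈ {x | b + P x ∈ closure K} := by
      show b + P (Q (x - b)) ∈ closure K
      rw [hPQ, add_sub_cancel]
      exact subset_closure hx
    have h1 := hvv _ hy
    have h2 := hψ2 (Q (x - b))
    have e1 : (Real.sqrt s • (ψ.comp Q)) (x - b) = Real.sqrt s • ψ (Q (x - b)) := rfl
    rw [e1, om_smul_left, om_smul_left, mul_pow, mul_pow, Real.sq_sqrt hs.le, h2.1, h2.2]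
    have h3 : (om J v v')⁻¹ * (inner ℝ (Q (x - b)) v ^ 2 + inner ℝ (Q (x - b)) v' ^ 2) ≤ B := by
      rw [inv_mul_le_iff₀ ha, mul_comm]
      exact h1
    nlinarith
end

/-- The affine theorem for general convex bodies. -/
theorem abs_general (hMAX : S_MAX) (hNFP : S_NFP) (hVAR : S_VAR) (hHULL : S_HULL)
    (hLAG : S_LAG) (hPAIR : S_PAIR) (hGRO : S_GRO) (hWITT : S_WITT)
    (V : Type) [NormedAddCommGroup V] [InnerProductSpace ℝ V]
    [FiniteDimensional ℝ V] [Nontrivial V] (J : V →L[ℝ] V) (hJ : IsCS J) (K : Set V)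
    (hKo : IsOpen K) (hKc : Convex ℝ K) (hKb : Bornology.IsBounded K) (hKn : K.Nonempty)
    (e f : V) (hef : om J e f = 1) :
    ∃ (P : V →L[ℝ] V) (b : V) (s : ℝ) (ψ : V →L[ℝ] V), 0 < s ∧ Conf J P s ∧
      (∀ x, ‖x‖ < 1 → b + P x ∈ K) ∧ Conf J ψ 1 ∧
      ∀ x ∈ K, (om J (ψ (x - b)) e) ^ 2 + (om J (ψ (x - b)) f) ^ 2 ≤
        29 / 2 * (Module.finrank ℝ V : ℝ) * s := by
  obtain ⟨P, b, s, hs, hP, hball, hmax⟩ := hMAX V J hJ (closure K) hKb.isCompact_closure
    (hKn.mono (interior_maximal subset_closure hKo))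
  refine affine_of_two hNFP hWITT J hJ K hKo hKc hKb hKn e f hef P b s _ hs hP hball hmax ?_
  intro hNF
  obtain ⟨v, v', ha, h1, h2⟩ := two_general hVAR hHULL hLAG hPAIR hGRO J hJ _ hNF
  refine ⟨v, v', ha, fun x hx => ?_⟩
  obtain ⟨h3, h4⟩ := h2 x hx
  nlinarith

/-- The affine theorem for symmetric convex bodies. -/
theorem abs_symm (hMAX : S_MAX) (hNFP : S_NFP) (hVAR : S_VAR) (hHULL : S_HULL)
    (hLAG : S_LAG) (hPAIR : S_PAIR) (hWITT : S_WITT)
    (V : Type) [NormedAddCommGroup V] [InnerProductSpace ℝ V]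
    [FiniteDimensional ℝ V] [Nontrivial V] (J : V →L[ℝ] V) (hJ : IsCS J) (K : Set V)
    (hKo : IsOpen K) (hKc : Convex ℝ K) (hKb : Bornology.IsBounded K) (hKn : K.Nonempty)
    (hKs : ∀ x ∈ K, -x ∈ K) (e f : V) (hef : om J e f = 1) :
    ∃ (P : V →L[ℝ] V) (b : V) (s : ℝ) (ψ : V →L[ℝ] V), 0 < s ∧ Conf J P s ∧
      (∀ x, ‖x‖ < 1 → b + P x ∈ K) ∧ Conf J ψ 1 ∧
      ∀ x ∈ K, (om J (ψ (x - b)) e) ^ 2 + (om J (ψ (x - b)) f) ^ 2 ≤
        2 * Real.sqrt (Module.finrank ℝ V : ℝ) * s := by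
  obtain ⟨P, b, s, hs, hP, hball, hmax⟩ := hMAX V J hJ (closure K) hKb.isCompact_closure
    (hKn.mono (interior_maximal subset_closure hKo))
  have hcs : ∀ x ∈ closure K, -x ∈ closure K := by
    intro x hx
    have h1 : Set.MapsTo (fun x : V => -x) (closure K) (closure K) :=
      Set.MapsTo.closure (fun x hx => hKs x hx) continuous_neg
    exact h1 hx
  have hball0 : ∀ x, ‖x‖ ≤ 1 → (0 : V) + P x ∈ closure K := by
    intro x hx
    have h1 := hball x hx
    have h2 := hcs _ (hball (-x) (by simpa using hx))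
    have h3 := hKc.closure h1 h2 (by norm_num : (0 : ℝ) ≤ 1 / 2) (by norm_num : (0 : ℝ) ≤ 1 / 2)
      (by norm_num)
    convert h3 using 1
    rw [map_neg]
    module
  refine affine_of_two hNFP hWITT J hJ K hKo hKc hKb hKn e f hef P 0 s _ hs hP hball0 hmax ?_
  intro hNF
  obtain ⟨v, v', ha, h1, h2⟩ := two_symm hVAR hHULL hLAG hPAIR J hJ _ hNF (by
    intro x hx
    show (0 : V) + P (-x) ∈ closure K
    have h := hcs _ hx
    rw [map_neg]
    rwa [neg_add, neg_zero] at h)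
  refine ⟨v, v', ha, fun x hx => ?_⟩
  obtain ⟨h3, h4⟩ := h2 x hx
  have h5 : 1 ≤ Real.sqrt (Module.finrank ℝ V : ℝ) * om J v v' := by
    have h6 : 1 ≤ (Real.sqrt (Module.finrank ℝ V : ℝ) * om J v v') ^ 2 := by
      rw [mul_pow, Real.sq_sqrt (Nat.cast_nonneg _)]
      exact h1
    have h7 : 0 ≤ Real.sqrt (Module.finrank ℝ V : ℝ) * om J v v' := by positivity
    nlinarith
  nlinarith

end Pool.Agent.Y52.SJ
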