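import Pool.Agent.Y52.SJ.Abs

/-!
# Project SJ: transfer to coordinates
-/

set_option autoImplicit false

namespace Pool.Agent.Y52.SJ

/-- The Euclidean model of the phase space. -/
abbrev EV (n : ℕ) := EuclideanSpace ℝ (Fin n ⊕ Fin n)

/-- Coordinates. -/
noncomputable def Llin (n : ℕ) : ((Fin n → ℝ) × (Fin n → ℝ)) ≃ₗ[ℝ] EV n where
  toFun z := WithLp.toLp 2 (Sum.elim z.1 z.2)
  invFun w := (fun i => w (Sum.inl i), fun i => w (Sum.inr i))
  map_add' x y := by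
    ext i; rcases i with i | i <;> simp
  map_smul' c x := by
    ext i; rcases i with i | i <;> simp
  left_inv x := by
    ext i <;> simp
  right_inv w := by
    ext i; rcases i with i | i <;> simp

/-- Coordinates, continuous version. -/
noncomputable def L (n : ℕ) : ((Fin n → ℝ) × (Fin n → ℝ)) ≃L[ℝ] EV n :=
  (Llin n).toContinuousLinearEquiv

/-- The complex structure. -/
noncomputable def Jlin (n : ℕ) : EV n →ₗ[ℝ] EV n where
  toFun w := WithLp.toLp 2 (Sum.elim (fun i => - w (Sum.inr i)) (fun i => w (Sum.inl i)))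
  map_add' x y := by
    ext i; rcases i with i | i <;> simp [add_comm]
  map_smul' c x := by
    ext i; rcases i with i | i <;> simp

/-- The complex structure, continuous version. -/
noncomputable def JJ (n : ℕ) : EV n →L[ℝ] EV n := LinearMap.toContinuousLinearMap (Jlin n)

lemma L_inl {n : ℕ} (z : (Fin n → ℝ) × (Fin n → ℝ)) (i : Fin n) : L n z (Sum.inl i) = z.1 i := rfl
lemma L_inr {n : ℕ} (z : (Fin n → ℝ) × (Fin n → ℝ)) (i : Fin n) : L n z (Sum.inr i) = z.2 i := rfl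
lemma J_inl {n : ℕ} (w : EV n) (i : Fin n) : JJ n w (Sum.inl i) = - w (Sum.inr i) := rfl
lemma J_inr {n : ℕ} (w : EV n) (i : Fin n) : JJ n w (Sum.inr i) = w (Sum.inl i) := rfl

lemma inner_EV {n : ℕ} (x y : EV n) : inner ℝ x y =
    ∑ i, x (Sum.inl i) * y (Sum.inl i) + ∑ i, x (Sum.inr i) * y (Sum.inr i) := by
  rw [PiLp.inner_apply, Fintype.sum_sum_type]
  simp [mul_comm]

lemma isCS_JJ (n : ℕ) : IsCS (JJ n) := by
  constructor
  · intro x
    ext i
    rcases i with i | i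
    · simp [J_inl, J_inr]
    · simp [J_inl, J_inr]
  · intro x y
    rw [inner_EV, inner_EV]
    simp only [J_inl, J_inr, neg_mul_neg]
    ring

lemma om_L {n : ℕ} (u v : (Fin n → ℝ) × (Fin n → ℝ)) : om (JJ n) (L n u) (L n v) = std u v := by
  unfold om std
  rw [inner_EV]
  simp only [J_inl, J_inr, L_inl, L_inr]
  rw [← Finset.sum_add_distrib]
  refine Finset.sum_congr rfl fun i _ => ?_
  ring

lemma norm_L {n : ℕ} (z : (Fin n → ℝ) × (Fin n → ℝ)) :
    ‖L n z‖ ^ 2 = ∑ i, (z.1 i ^ 2 + z.2 i ^ 2) := by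
  rw [← real_inner_self_eq_norm_sq, inner_EV]
  simp only [L_inl, L_inr]
  rw [← Finset.sum_add_distrib]
  refine Finset.sum_congr rfl fun i _ => ?_
  ring

lemma std_e {n : ℕ} (z : (Fin (n + 1) → ℝ) × (Fin (n + 1) → ℝ)) :
    std z (Pi.single 0 1, 0) = - z.2 0 := by
  unfold std
  simp [Pi.single_apply]

lemma std_f {n : ℕ} (z : (Fin (n + 1) → ℝ) × (Fin (n + 1) → ℝ)) :
    std z (0, Pi.single 0 1) = z.1 0 := by
  unfold std
  simp [Pi.single_apply]

/-- Conjugation by the coordinates. -/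
noncomputable def trf (n : ℕ) (P : EV n →L[ℝ] EV n) :
    ((Fin n → ℝ) × (Fin n → ℝ)) →L[ℝ] ((Fin n → ℝ) × (Fin n → ℝ)) :=
  ((L n).symm : EV n →L[ℝ] ((Fin n → ℝ) × (Fin n → ℝ))).comp
    (P.comp ((L n) : ((Fin n → ℝ) × (Fin n → ℝ)) →L[ℝ] EV n))

lemma trf_apply {n : ℕ} (P : EV n →L[ℝ] EV n) (x : (Fin n → ℝ) × (Fin n → ℝ)) :
    trf n P x = (L n).symm (P (L n x)) := rfl

/-- Transfer of an affine theorem to the capacities. -/
theorem transfer (hCAP : S_CAP) (n : ℕ) (K : Set ((Fin (n + 1) → ℝ) × (Fin (n + 1) → ℝ)))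
    (B : ℝ) (hB : 0 ≤ B)
    (h : ∃ (P : EV (n + 1) →L[ℝ] EV (n + 1)) (b : EV (n + 1)) (s : ℝ)
      (ψ : EV (n + 1) →L[ℝ] EV (n + 1)), 0 < s ∧ Conf (JJ (n + 1)) P s ∧
      (∀ x, ‖x‖ < 1 → b + P x ∈ (L (n + 1)).symm ⁻¹' K) ∧ Conf (JJ (n + 1)) ψ 1 ∧
      ∀ x ∈ (L (n + 1)).symm ⁻¹' K,
        (om (JJ (n + 1)) (ψ (x - b)) (L (n + 1) (Pi.single 0 1, 0))) ^ 2 +
          (om (JJ (n + 1)) (ψ (x - b)) (L (n + 1) (0, Pi.single 0 1))) ^ 2 ≤ B * s) :
    cylCapacity K ≤ ENNReal.ofReal B * gromovWidth K := by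
  obtain ⟨P, b, s, ψ, hs, hP, hball, hψ, hout⟩ := h
  obtain ⟨h1, h2⟩ := hCAP n K
  have key : ∀ (P : EV (n + 1) →L[ℝ] EV (n + 1)) (s : ℝ), Conf (JJ (n + 1)) P s →
      ∀ x y, std (trf (n + 1) P x) (trf (n + 1) P y) = s * std x y := by
    intro P s hP x y
    rw [← om_L, ← om_L x y]
    have := hP (L (n + 1) x) (L (n + 1) y)
    simpa [trf_apply] using this
  have hin := h1 (trf (n + 1) P) ((L (n + 1)).symm b) s hs (key P s hP) (by
    intro x hx
    have hx' : ‖L (n + 1) x‖ < 1 := by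
      have h3 : ‖L (n + 1) x‖ ^ 2 < 1 ^ 2 := by rw [norm_L]; exact hx
      exact lt_of_pow_lt_pow_left₀ 2 (by norm_num) h3
    have h4 := hball _ hx'
    rw [Set.mem_preimage, map_add] at h4
    exact h4)
  have hout' := h2 (trf (n + 1) ψ) (-((L (n + 1)).symm (ψ b))) (B * s)
    (mul_nonneg hB hs.le) (by
      intro x y
      rw [key ψ 1 hψ x y, one_mul]) (by
      intro x hx
      have h3 := hout (L (n + 1) x) (by simpa using hx)
      set z := -((L (n + 1)).symm (ψ b)) + trf (n + 1) ψ x with hz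
      have e1 : ψ (L (n + 1) x - b) = L (n + 1) z := by
        rw [hz, trf_apply]
        simp only [map_sub, map_add, map_neg, ContinuousLinearEquiv.apply_symm_apply]
        abel
      rw [e1, om_L, om_L, std_e, std_f] at h3
      nlinarith)
  calc cylCapacity K ≤ ENNReal.ofReal (Real.pi * (B * s)) := hout'
    _ = ENNReal.ofReal B * ENNReal.ofReal (Real.pi * s) := by
        rw [← ENNReal.ofReal_mul hB]
        congr 1; ring
    _ ≤ ENNReal.ofReal B * gromovWidth K := by gcongr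

lemma finrank_EV (n : ℕ) : (Module.finrank ℝ (EV n) : ℝ) = 2 * n := by
  rw [finrank_euclideanSpace]
  simp
  ring

instance (n : ℕ) : Nontrivial (EV (n + 1)) := by
  refine ⟨L (n + 1) (Pi.single 0 1, 0), 0, fun h => ?_⟩
  have h1 : L (n + 1) (Pi.single 0 1, 0) (Sum.inl 0) = 0 := by rw [h]; rfl
  rw [L_inl] at h1
  simp at h1

/-- The general theorem. -/
theorem general (hMAX : S_MAX) (hNFP : S_NFP) (hVAR : S_VAR) (hHULL : S_HULL)
    (hLAG : S_LAG) (hPAIR : S_PAIR) (hGRO : S_GRO) (hWITT : S_WITT) (hCAP : S_CAP)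
    (n : ℕ) (K : Set ((Fin (n + 1) → ℝ) × (Fin (n + 1) → ℝ))) (hKo : IsOpen K)
    (hKc : Convex ℝ K) (hKb : Bornology.IsBounded K) (hKn : K.Nonempty) :
    cylCapacity K ≤ ENNReal.ofReal (29 * (n + 1)) * gromovWidth K := by
  refine transfer hCAP n K _ (by positivity) ?_
  have h := abs_general hMAX hNFP hVAR hHULL hLAG hPAIR hGRO hWITT (EV (n + 1)) (JJ (n + 1))
    (isCS_JJ _) ((L (n + 1)).symm ⁻¹' K) (hKo.preimage (L (n + 1)).symm.continuous)
    (hKc.linear_preimage ((L (n + 1)).symm : EV (n + 1) →ₗ[ℝ] _)) (by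
      rw [← ContinuousLinearEquiv.image_eq_preimage_symm]
      exact (L (n + 1)).lipschitz.isBounded_image hKb) (by
      obtain ⟨x, hx⟩ := hKn
      exact ⟨L (n + 1) x, by simpa using hx⟩)
    (L (n + 1) (Pi.single 0 1, 0)) (L (n + 1) (0, Pi.single 0 1)) (by
      rw [om_L, std_f]; simp)
  rw [finrank_EV] at h
  have e : (29 / 2 * (2 * ((n + 1 : ℕ) : ℝ))) = 29 * (n + 1) := by push_cast; ring
  rw [e] at h
  exact h

/-- The symmetric theorem. -/
theorem symm (hMAX : S_MAX) (hNFP : S_NFP) (hVAR : S_VAR) (hHULL : S_HULL)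
    (hLAG : S_LAG) (hPAIR : S_PAIR) (hWITT : S_WITT) (hCAP : S_CAP)
    (n : ℕ) (K : Set ((Fin (n + 1) → ℝ) × (Fin (n + 1) → ℝ))) (hKo : IsOpen K)
    (hKc : Convex ℝ K) (hKb : Bornology.IsBounded K) (hKn : K.Nonempty)
    (hKs : ∀ x ∈ K, -x ∈ K) :
    cylCapacity K ≤ ENNReal.ofReal (2 * Real.sqrt (2 * (n + 1))) * gromovWidth K := by
  refine transfer hCAP n K _ (by positivity) ?_
  have h := abs_symm hMAX hNFP hVAR hHULL hLAG hPAIR hWITT (EV (n + 1)) (JJ (n + 1))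
    (isCS_JJ _) ((L (n + 1)).symm ⁻¹' K) (hKo.preimage (L (n + 1)).symm.continuous)
    (hKc.linear_preimage ((L (n + 1)).symm : EV (n + 1) →ₗ[ℝ] _)) (by
      rw [← ContinuousLinearEquiv.image_eq_preimage_symm]
      exact (L (n + 1)).lipschitz.isBounded_image hKb) (by
      obtain ⟨x, hx⟩ := hKn
      exact ⟨L (n + 1) x, by simpa using hx⟩) (by
      intro x hx
      show (L (n + 1)).symm (-x) ∈ K
      rw [map_neg]
      exact hKs _ hx)
    (L (n + 1) (Pi.single 0 1, 0)) (L (n + 1) (0, Pi.single 0 1)) (by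
      rw [om_L, std_f]; simp)
  rw [finrank_EV] at h
  have e : ((n + 1 : ℕ) : ℝ) = n + 1 := by push_cast; ring
  rw [e] at h
  exact h

end Pool.Agent.Y52.SJ
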