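import Pool.Agent.Y52.SJ.Stm

/-!
# Project SJ: second group of statements (sharper constants)
-/

set_option autoImplicit false

namespace Pool.Agent.Y52.SJ

/-- RND: Gaussian rounding of a matrix with the signs of the Gram matrix. -/
def S_RND : Prop := ∀ (V : Type) [NormedAddCommGroup V] [InnerProductSpace ℝ V]
  [FiniteDimensional ℝ V] (m : ℕ) (w : Fin m → Fin m → ℝ) (x y : Fin m → V),
  (∀ i j, 0 ≤ w i j) → (∀ i, ‖x i‖ = 1) → (∀ i, ‖y i‖ = 1) →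
  ∃ ε δ : Fin m → ℝ, (∀ i, |ε i| = 1) ∧ (∀ i, |δ i| = 1) ∧
    2 / Real.pi * ∑ i, ∑ j, w i j * (inner ℝ (x i) (y j)) ^ 2 ≤
      ∑ i, ∑ j, w i j * inner ℝ (x i) (y j) * ε i * δ j

/-- SQ: the explicit area preserving map `(q, p) ↦ (a q, p * b q)` of an open square onto the open
disc of the same area. -/
def S_SQ : Prop := ∀ l R : ℝ, 0 < l → 0 < R → 4 * l ^ 2 = Real.pi * R ^ 2 →
  ∃ a b : ℝ → ℝ, ContDiffOn ℝ ((⊤ : ℕ∞) : WithTop ℕ∞) a (Set.Ioo (-l) l) ∧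
    ContDiffOn ℝ ((⊤ : ℕ∞) : WithTop ℕ∞) b (Set.Ioo (-l) l) ∧
    Set.InjOn a (Set.Ioo (-l) l) ∧
    ∀ q ∈ Set.Ioo (-l) l, 0 < b q ∧ HasDerivAt a (b q)⁻¹ q ∧ a q ^ 2 + l ^ 2 * b q ^ 2 = R ^ 2

/-- CAP2: an affine symplectic map into a square times a linear space bounds the cylindrical
capacity by the area of the square. -/
def S_CAP2 : Prop := S_SQ → ∀ (n : ℕ) (K : Set ((Fin (n + 1) → ℝ) × (Fin (n + 1) → ℝ)))
  (P : ((Fin (n + 1) → ℝ) × (Fin (n + 1) → ℝ)) →L[ℝ] ((Fin (n + 1) → ℝ) × (Fin (n + 1) → ℝ)))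
  (b : (Fin (n + 1) → ℝ) × (Fin (n + 1) → ℝ)) (s : ℝ), 0 ≤ s →
  (∀ x y, std (P x) (P y) = std x y) →
  (∀ x ∈ K, (b + P x).1 0 ^ 2 ≤ s ∧ (b + P x).2 0 ^ 2 ≤ s) →
  cylCapacity K ≤ ENNReal.ofReal (4 * s)

end Pool.Agent.Y52.SJ
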