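import Pool.Agent.Y52.SJ.Abs
import Pool.Agent.Y52.SJ.Conc
import Pool.Agent.Y52.SJ.Stm2

/-!
# Project SJ: assembly with the sharp constants
-/

set_option autoImplicit false

namespace Pool.Agent.Y52.SJ

section
variable {V : Type} [NormedAddCommGroup V] [InnerProductSpace ℝ V]

/-- Two functionals for a general convex body in normal position (Gaussian rounding). -/
lemma two_general' (hVAR : S_VAR) (hHULL : S_HULL) (hLAG : S_LAG) (hPAIR : S_PAIR)
    (hRND : S_RND) [FiniteDimensional ℝ V] [Nontrivial V] (J : V →L[ℝ] V) (hJ : IsCS J)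
    (C : Set V) (hC : NF J C) :
    ∃ (v v' : V) (t t' : ℝ), 0 < om J v v' ∧
      2 / Real.pi ≤ (Module.finrank ℝ V : ℝ) * om J v v' ∧
      ∀ x ∈ C, (inner ℝ x v - t) ^ 2 ≤ 1 ∧ (inner ℝ x v' - t') ^ 2 ≤ 1 := by
  obtain ⟨m, c, u, hc, hsum, hu1, huC, h0, hp⟩ := contact hVAR hHULL hLAG hPAIR J hJ C hC
  obtain ⟨ε, δ, hε, hδ, hle⟩ := hRND V m (fun i j => c i * c j)
    (fun i => J (u i)) u (fun i j => mul_nonneg (hc i) (hc j)) (fun i => by
      have h := hJ.2 (u i) (u i)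
      rw [real_inner_self_eq_norm_sq, real_inner_self_eq_norm_sq, hu1 i] at h
      nlinarith [norm_nonneg (J (u i))]) hu1
  have e1 : ∑ i, ∑ j, c i * c j * (inner ℝ (J (u i)) (u j)) ^ 2
      = ∑ i, ∑ j, c i * c j * (om J (u i) (u j)) ^ 2 := rfl
  rw [e1] at hle
  have e2 : ∑ i, ∑ j, c i * c j * inner ℝ (J (u i)) (u j) * ε i * δ j
      = om J (∑ i, (c i * ε i) • u i) (∑ j, (c j * δ j) • u j) := by
    rw [om_sum_sum]
    refine Finset.sum_congr rfl fun i _ => Finset.sum_congr rfl fun j _ => ?_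
    have : inner ℝ (J (u i)) (u j) = om J (u i) (u j) := rfl
    rw [this]
    ring
  rw [e2] at hle
  have hd : (0 : ℝ) ≤ (Module.finrank ℝ V : ℝ) := Nat.cast_nonneg _
  have hpi := Real.pi_pos
  have key : ∀ (ε : Fin m → ℝ), (∀ i, |ε i| = 1) → ∀ x ∈ C,
      (inner ℝ x (∑ i, (c i * ε i) • u i) - ∑ i, c i * ε i) ^ 2 ≤ 1 := by
    intro ε hε x hx
    have h1 : |inner ℝ x (∑ i, (c i * ε i) • u i) - ∑ i, c i * ε i| ≤ 1 := by
      rw [inner_sum, ← Finset.sum_sub_distrib]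
      refine (Finset.abs_sum_le_sum_abs _ _).trans ?_
      have h2 : ∀ i, |inner ℝ x ((c i * ε i) • u i) - c i * ε i| ≤
          c i * (1 - inner ℝ x (u i)) := by
        intro i
        rw [inner_smul_right]
        have e : c i * ε i * inner ℝ x (u i) - c i * ε i = c i * ε i * (inner ℝ x (u i) - 1) := by
          ring
        rw [e, abs_mul, abs_mul, hε i, mul_one, abs_of_nonneg (hc i)]
        refine mul_le_mul_of_nonneg_left ?_ (hc i)
        have := huC i x hx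
        rw [abs_of_nonpos (by linarith)]
        linarith
      refine (Finset.sum_le_sum fun i _ => h2 i).trans ?_
      have h3 : ∑ i, c i * (1 - inner ℝ x (u i)) = ∑ i, c i - inner ℝ x (∑ i, c i • u i) := by
        rw [inner_sum, ← Finset.sum_sub_distrib]
        refine Finset.sum_congr rfl fun i _ => ?_
        rw [inner_smul_right]; ring
      rw [h3, hsum, h0, inner_zero_right]
      norm_num
    have := abs_le.1 h1
    nlinarith [this.1, this.2]
  have hfin : 2 / Real.pi ≤ (Module.finrank ℝ V : ℝ) *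
      om J (∑ i, (c i * ε i) • u i) (∑ j, (c j * δ j) • u j) := by
    calc 2 / Real.pi ≤ 2 / Real.pi * ((Module.finrank ℝ V : ℝ) *
          ∑ i, ∑ j, c i * c j * (om J (u i) (u j)) ^ 2) :=
          le_mul_of_one_le_right (by positivity) hp
      _ = (Module.finrank ℝ V : ℝ) * (2 / Real.pi *
          ∑ i, ∑ j, c i * c j * (om J (u i) (u j)) ^ 2) := by ring
      _ ≤ _ := mul_le_mul_of_nonneg_left hle hd
  refine ⟨_, _, _, _, ?_, hfin, fun x hx => ⟨key ε hε x hx, key δ hδ x hx⟩⟩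
  by_contra hneg
  push Not at hneg
  have h4 : (0 : ℝ) < 2 / Real.pi := by positivity
  have h5 := mul_nonpos_of_nonneg_of_nonpos hd hneg
  linarith

/-- From two functionals to a symplectic map, linear version. -/
lemma witt_map' (hWITT : S_WITT) [FiniteDimensional ℝ V] (J : V →L[ℝ] V) (hJ : IsCS J)
    (e f : V) (hef : om J e f = 1) (v v' : V) (ha : 0 < om J v v') :
    ∃ ψ : V →L[ℝ] V, Conf J ψ 1 ∧ ∀ x, om J (ψ x) e = (Real.sqrt (om J v v'))⁻¹ * inner ℝ x v ∧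
      om J (ψ x) f = (Real.sqrt (om J v v'))⁻¹ * inner ℝ x v' := by
  set a := om J v v' with hadef
  set q := (Real.sqrt a)⁻¹ with hq
  have hq2 : q ^ 2 = a⁻¹ := by
    rw [hq, inv_pow, Real.sq_sqrt ha.le]
  have hww : om J (q • J v) (q • J v') = 1 := by
    rw [om_smul_left, om_smul_right]
    have : om J (J v) (J v') = a := by
      rw [hadef]; unfold om; rw [hJ.2]
    rw [this, ← mul_assoc, ← sq, hq2]
    exact inv_mul_cancel₀ ha.ne'
  obtain ⟨ψ, h1, h2, h3⟩ := hWITT V J hJ _ _ e f hww hef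
  refine ⟨ψ, h1, fun x => ⟨?_, ?_⟩⟩
  · rw [← h2, h1 x, om_smul_right]
    have : om J x (J v) = inner ℝ x v := by unfold om; rw [hJ.2]
    rw [this]; ring
  · rw [← h3, h1 x, om_smul_right]
    have : om J x (J v') = inner ℝ x v' := by unfold om; rw [hJ.2]
    rw [this]; ring

/-- Affine theorem, given the two functionals. -/
lemma affine_of_two' (hNFP : S_NFP) (hWITT : S_WITT)
    [FiniteDimensional ℝ V] [Nontrivial V] (J : V →L[ℝ] V) (hJ : IsCS J) (K : Set V)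
    (hKo : IsOpen K) (hKc : Convex ℝ K) (hKb : Bornology.IsBounded K) (hKn : K.Nonempty)
    (e f : V) (hef : om J e f = 1) (P : V →L[ℝ] V) (b : V) (s B : ℝ) (hs : 0 < s)
    (hP : Conf J P s) (hball : ∀ x, ‖x‖ ≤ 1 → b + P x ∈ closure K)
    (hmax : ∀ (P' : V →L[ℝ] V) (b' : V) (s' : ℝ), Conf J P' s' →
      (∀ x, ‖x‖ ≤ 1 → b' + P' x ∈ closure K) → s' ≤ s)
    (htwo : NF J {x | b + P x ∈ closure K} → ∃ (v v' : V) (t t' : ℝ), 0 < om J v v' ∧
      1 ≤ B * om J v v' ∧ ∀ x ∈ {x | b + P x ∈ closure K},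
        (inner ℝ x v - t) ^ 2 ≤ 1 ∧ (inner ℝ x v' - t') ^ 2 ≤ 1) :
    ∃ (P : V →L[ℝ] V) (b : V) (s : ℝ) (ψ : V →L[ℝ] V) (t t' : ℝ), 0 < s ∧ Conf J P s ∧
      (∀ x, ‖x‖ < 1 → b + P x ∈ K) ∧ Conf J ψ 1 ∧
      ∀ x ∈ K, (om J (ψ (x - b)) e - t) ^ 2 ≤ B * s ∧ (om J (ψ (x - b)) f - t') ^ 2 ≤ B * s := by
  obtain ⟨hNF, Q, hQ, hQP, hPQ⟩ := hNFP V J hJ (closure K) hKb.isCompact_closure hKc.closure
    P b s hs hP hball hmax
  obtain ⟨v, v', t, t', ha, hB, hvv⟩ := htwo hNF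
  obtain ⟨ψ, hψ, hψ2⟩ := witt_map' hWITT J hJ e f hef v v' ha
  refine ⟨P, b, s, (Real.sqrt s) • (ψ.comp Q), Real.sqrt s * ((Real.sqrt (om J v v'))⁻¹ * t),
    Real.sqrt s * ((Real.sqrt (om J v v'))⁻¹ * t'), hs, hP,
    fun x hx => ball_open K hKo hKc hKn P Q b hQP hPQ hball x hx, ?_, ?_⟩
  · have h := conf_smul (Real.sqrt s) (conf_comp hψ hQ)
    rw [Real.sq_sqrt hs.le, one_mul, mul_inv_cancel₀ hs.ne'] at h
    exact h
  · intro x hx
    have hy : Q (x - b) ∈ {x | b + P x ∈ closure K} := by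
      show b + P (Q (x - b)) ∈ closure K
      rw [hPQ, add_sub_cancel]
      exact subset_closure hx
    have h1 := hvv _ hy
    have h2 := hψ2 (Q (x - b))
    have e1 : (Real.sqrt s • (ψ.comp Q)) (x - b) = Real.sqrt s • ψ (Q (x - b)) := rfl
    have h3 : (om J v v')⁻¹ ≤ B := by
      rw [inv_le_iff_one_le_mul₀ ha]
      exact hB
    have h4 : ∀ w τ : ℝ, (w - τ) ^ 2 ≤ 1 → (Real.sqrt s * ((Real.sqrt (om J v v'))⁻¹ * w) -
        Real.sqrt s * ((Real.sqrt (om J v v'))⁻¹ * τ)) ^ 2 ≤ B * s := by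
      intro w τ hw
      have e2 : (Real.sqrt s * ((Real.sqrt (om J v v'))⁻¹ * w) -
        Real.sqrt s * ((Real.sqrt (om J v v'))⁻¹ * τ)) ^ 2 =
          (Real.sqrt s) ^ 2 * ((Real.sqrt (om J v v')) ^ 2)⁻¹ * (w - τ) ^ 2 := by
        rw [← inv_pow]; ring
      rw [e2, Real.sq_sqrt hs.le, Real.sq_sqrt ha.le]
      have h5 : 0 < (om J v v')⁻¹ := inv_pos.2 ha
      calc s * (om J v v')⁻¹ * (w - τ) ^ 2 ≤ s * (om J v v')⁻¹ * 1 :=
            mul_le_mul_of_nonneg_left hw (by positivity)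
        _ = (om J v v')⁻¹ * s := by ring
        _ ≤ B * s := mul_le_mul_of_nonneg_right h3 hs.le
    rw [e1, om_smul_left, om_smul_left, h2.1, h2.2]
    exact ⟨h4 _ _ h1.1, h4 _ _ h1.2⟩
end

/-- The affine theorem for general convex bodies. -/
theorem abs_general' (hMAX : S_MAX) (hNFP : S_NFP) (hVAR : S_VAR) (hHULL : S_HULL)
    (hLAG : S_LAG) (hPAIR : S_PAIR) (hRND : S_RND) (hWITT : S_WITT)
    (V : Type) [NormedAddCommGroup V] [InnerProductSpace ℝ V]
    [FiniteDimensional ℝ V] [Nontrivial V] (J : V →L[ℝ] V) (hJ : IsCS J) (K : Set V)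
    (hKo : IsOpen K) (hKc : Convex ℝ K) (hKb : Bornology.IsBounded K) (hKn : K.Nonempty)
    (e f : V) (hef : om J e f = 1) :
    ∃ (P : V →L[ℝ] V) (b : V) (s : ℝ) (ψ : V →L[ℝ] V) (t t' : ℝ), 0 < s ∧ Conf J P s ∧
      (∀ x, ‖x‖ < 1 → b + P x ∈ K) ∧ Conf J ψ 1 ∧
      ∀ x ∈ K, (om J (ψ (x - b)) e - t) ^ 2 ≤ (Real.pi / 2 * (Module.finrank ℝ V : ℝ)) * s ∧
        (om J (ψ (x - b)) f - t') ^ 2 ≤ (Real.pi / 2 * (Module.finrank ℝ V : ℝ)) * s := by
  obtain ⟨P, b, s, hs, hP, hball, hmax⟩ := hMAX V J hJ (closure K) hKb.isCompact_closure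
    (hKn.mono (interior_maximal subset_closure hKo))
  refine affine_of_two' hNFP hWITT J hJ K hKo hKc hKb hKn e f hef P b s _ hs hP hball hmax ?_
  intro hNF
  obtain ⟨v, v', t, t', ha, h1, h2⟩ := two_general' hVAR hHULL hLAG hPAIR hRND J hJ _ hNF
  refine ⟨v, v', t, t', ha, ?_, h2⟩
  have hpi := Real.pi_pos
  have h3 : Real.pi / 2 * (2 / Real.pi) ≤
      Real.pi / 2 * ((Module.finrank ℝ V : ℝ) * om J v v') :=
    mul_le_mul_of_nonneg_left h1 (by positivity)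
  have h4 : Real.pi / 2 * (2 / Real.pi) = 1 := by field_simp
  rw [h4] at h3
  linarith

/-- The affine theorem for symmetric convex bodies. -/
theorem abs_symm' (hMAX : S_MAX) (hNFP : S_NFP) (hVAR : S_VAR) (hHULL : S_HULL)
    (hLAG : S_LAG) (hPAIR : S_PAIR) (hWITT : S_WITT)
    (V : Type) [NormedAddCommGroup V] [InnerProductSpace ℝ V]
    [FiniteDimensional ℝ V] [Nontrivial V] (J : V →L[ℝ] V) (hJ : IsCS J) (K : Set V)
    (hKo : IsOpen K) (hKc : Convex ℝ K) (hKb : Bornology.IsBounded K) (hKn : K.Nonempty)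
    (hKs : ∀ x ∈ K, -x ∈ K) (e f : V) (hef : om J e f = 1) :
    ∃ (P : V →L[ℝ] V) (b : V) (s : ℝ) (ψ : V →L[ℝ] V) (t t' : ℝ), 0 < s ∧ Conf J P s ∧
      (∀ x, ‖x‖ < 1 → b + P x ∈ K) ∧ Conf J ψ 1 ∧
      ∀ x ∈ K, (om J (ψ (x - b)) e - t) ^ 2 ≤ Real.sqrt (Module.finrank ℝ V : ℝ) * s ∧
        (om J (ψ (x - b)) f - t') ^ 2 ≤ Real.sqrt (Module.finrank ℝ V : ℝ) * s := by
  obtain ⟨P, b, s, hs, hP, hball, hmax⟩ := hMAX V J hJ (closure K) hKb.isCompact_closure
    (hKn.mono (interior_maximal subset_closure hKo))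
  have hcs : ∀ x ∈ closure K, -x ∈ closure K := by
    intro x hx
    have h1 : Set.MapsTo (fun x : V => -x) (closure K) (closure K) :=
      Set.MapsTo.closure (fun x hx => hKs x hx) continuous_neg
    exact h1 hx
  have hball0 : ∀ x, ‖x‖ ≤ 1 → (0 : V) + P x ∈ closure K := by
    intro x hx
    have h1 := hball x hx
    have h2 := hcs _ (hball (-x) (by simpa using hx))
    have h3 := hKc.closure h1 h2 (by norm_num : (0 : ℝ) ≤ 1 / 2) (by norm_num : (0 : ℝ) ≤ 1 / 2)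
      (by norm_num)
    convert h3 using 1
    rw [map_neg]
    module
  refine affine_of_two' hNFP hWITT J hJ K hKo hKc hKb hKn e f hef P 0 s _ hs hP hball0 hmax ?_
  intro hNF
  obtain ⟨v, v', ha, h1, h2⟩ := two_symm hVAR hHULL hLAG hPAIR J hJ _ hNF (by
    intro x hx
    show (0 : V) + P (-x) ∈ closure K
    have h := hcs _ hx
    rw [map_neg]
    rwa [neg_add, neg_zero] at h)
  refine ⟨v, v', 0, 0, ha, ?_, fun x hx => ?_⟩
  · have h6 : 1 ≤ (Real.sqrt (Module.finrank ℝ V : ℝ) * om J v v') ^ 2 := by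
      rw [mul_pow, Real.sq_sqrt (Nat.cast_nonneg _)]
      exact h1
    have h7 : 0 ≤ Real.sqrt (Module.finrank ℝ V : ℝ) * om J v v' := by positivity
    nlinarith
  · rw [sub_zero, sub_zero]
    exact h2 x hx

/-- Transfer to the capacities. -/
theorem transfer' (hCAP : S_CAP) (hSQ : S_SQ) (hCAP2 : S_CAP2) (n : ℕ)
    (K : Set ((Fin (n + 1) → ℝ) × (Fin (n + 1) → ℝ)))
    (B : ℝ) (hB : 0 ≤ B)
    (h : ∃ (P : EV (n + 1) →L[ℝ] EV (n + 1)) (b : EV (n + 1)) (s : ℝ)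
      (ψ : EV (n + 1) →L[ℝ] EV (n + 1)) (t t' : ℝ), 0 < s ∧ Conf (JJ (n + 1)) P s ∧
      (∀ x, ‖x‖ < 1 → b + P x ∈ (L (n + 1)).symm ⁻¹' K) ∧ Conf (JJ (n + 1)) ψ 1 ∧
      ∀ x ∈ (L (n + 1)).symm ⁻¹' K,
        (om (JJ (n + 1)) (ψ (x - b)) (L (n + 1) (Pi.single 0 1, 0)) - t) ^ 2 ≤ B * s ∧
          (om (JJ (n + 1)) (ψ (x - b)) (L (n + 1) (0, Pi.single 0 1)) - t') ^ 2 ≤ B * s) :
    cylCapacity K ≤ ENNReal.ofReal (4 * B / Real.pi) * gromovWidth K := by
  obtain ⟨P, b, s, ψ, t, t', hs, hP, hball, hψ, hout⟩ := h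
  have h1 := (hCAP n K).1
  have h2 := hCAP2 hSQ n K
  have key : ∀ (P : EV (n + 1) →L[ℝ] EV (n + 1)) (s : ℝ), Conf (JJ (n + 1)) P s →
      ∀ x y, std (trf (n + 1) P x) (trf (n + 1) P y) = s * std x y := by
    intro P s hP x y
    rw [← om_L, ← om_L x y]
    have := hP (L (n + 1) x) (L (n + 1) y)
    simpa [trf_apply] using this
  have hin := h1 (trf (n + 1) P) ((L (n + 1)).symm b) s hs (key P s hP) (by
    intro x hx
    have hx' : ‖L (n + 1) x‖ < 1 := by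
      have h3 : ‖L (n + 1) x‖ ^ 2 < 1 ^ 2 := by rw [norm_L]; exact hx
      exact lt_of_pow_lt_pow_left₀ 2 (by norm_num) h3
    have h4 := hball _ hx'
    rw [Set.mem_preimage, map_add] at h4
    exact h4)
  have hout' := h2 (trf (n + 1) ψ)
    (-((L (n + 1)).symm (ψ b)) + (Pi.single 0 (-t'), Pi.single 0 t)) (B * s)
    (mul_nonneg hB hs.le) (by
      intro x y
      rw [key ψ 1 hψ x y, one_mul]) (by
      intro x hx
      have h3 := hout (L (n + 1) x) (by simpa using hx)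
      set z := -((L (n + 1)).symm (ψ b)) + trf (n + 1) ψ x with hz
      have e1 : ψ (L (n + 1) x - b) = L (n + 1) z := by
        rw [hz, trf_apply]
        simp only [map_sub, map_add, map_neg, ContinuousLinearEquiv.apply_symm_apply]
        abel
      have e2 : -((L (n + 1)).symm (ψ b)) + (Pi.single 0 (-t'), Pi.single 0 t) +
          trf (n + 1) ψ x = z + (Pi.single 0 (-t'), Pi.single 0 t) := by
        rw [hz]; abel
      rw [e1, om_L, om_L, std_e, std_f] at h3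
      rw [e2]
      simp only [Prod.fst_add, Prod.snd_add, Pi.add_apply, Pi.single_eq_same]
      constructor
      · nlinarith [h3.2]
      · nlinarith [h3.1])
  have hpi := Real.pi_pos
  calc cylCapacity K ≤ ENNReal.ofReal (4 * (B * s)) := hout'
    _ = ENNReal.ofReal (4 * B / Real.pi) * ENNReal.ofReal (Real.pi * s) := by
        rw [← ENNReal.ofReal_mul (by positivity)]
        congr 1
        field_simp
    _ ≤ ENNReal.ofReal (4 * B / Real.pi) * gromovWidth K := by gcongr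

/-- The general theorem with constant `4 (n + 1)`. -/
theorem general' (hMAX : S_MAX) (hNFP : S_NFP) (hVAR : S_VAR) (hHULL : S_HULL)
    (hLAG : S_LAG) (hPAIR : S_PAIR) (hRND : S_RND) (hWITT : S_WITT) (hCAP : S_CAP)
    (hSQ : S_SQ) (hCAP2 : S_CAP2)
    (n : ℕ) (K : Set ((Fin (n + 1) → ℝ) × (Fin (n + 1) → ℝ))) (hKo : IsOpen K)
    (hKc : Convex ℝ K) (hKb : Bornology.IsBounded K) (hKn : K.Nonempty) :
    cylCapacity K ≤ ENNReal.ofReal (4 * (n + 1)) * gromovWidth K := by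
  have h := abs_general' hMAX hNFP hVAR hHULL hLAG hPAIR hRND hWITT (EV (n + 1)) (JJ (n + 1))
    (isCS_JJ _) ((L (n + 1)).symm ⁻¹' K) (hKo.preimage (L (n + 1)).symm.continuous)
    (hKc.linear_preimage ((L (n + 1)).symm : EV (n + 1) →ₗ[ℝ] _)) (by
      rw [← ContinuousLinearEquiv.image_eq_preimage_symm]
      exact (L (n + 1)).lipschitz.isBounded_image hKb) (by
      obtain ⟨x, hx⟩ := hKn
      exact ⟨L (n + 1) x, by simpa using hx⟩)
    (L (n + 1) (Pi.single 0 1, 0)) (L (n + 1) (0, Pi.single 0 1)) (by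
      rw [om_L, std_f]; simp)
  rw [finrank_EV] at h
  have hpi := Real.pi_pos
  have h2 := transfer' hCAP hSQ hCAP2 n K _ (by positivity) h
  have e : 4 * (Real.pi / 2 * (2 * ((n + 1 : ℕ) : ℝ))) / Real.pi = 4 * (n + 1) := by
    push_cast
    field_simp
  rw [e] at h2
  exact h2

/-- The symmetric theorem with constant `(4/π) √(2(n+1))`. -/
theorem symm' (hMAX : S_MAX) (hNFP : S_NFP) (hVAR : S_VAR) (hHULL : S_HULL)
    (hLAG : S_LAG) (hPAIR : S_PAIR) (hWITT : S_WITT) (hCAP : S_CAP)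
    (hSQ : S_SQ) (hCAP2 : S_CAP2)
    (n : ℕ) (K : Set ((Fin (n + 1) → ℝ) × (Fin (n + 1) → ℝ))) (hKo : IsOpen K)
    (hKc : Convex ℝ K) (hKb : Bornology.IsBounded K) (hKn : K.Nonempty)
    (hKs : ∀ x ∈ K, -x ∈ K) :
    cylCapacity K ≤ ENNReal.ofReal (4 / Real.pi * Real.sqrt (2 * (n + 1))) * gromovWidth K := by
  have h := abs_symm' hMAX hNFP hVAR hHULL hLAG hPAIR hWITT (EV (n + 1)) (JJ (n + 1))
    (isCS_JJ _) ((L (n + 1)).symm ⁻¹' K) (hKo.preimage (L (n + 1)).symm.continuous)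
    (hKc.linear_preimage ((L (n + 1)).symm : EV (n + 1) →ₗ[ℝ] _)) (by
      rw [← ContinuousLinearEquiv.image_eq_preimage_symm]
      exact (L (n + 1)).lipschitz.isBounded_image hKb) (by
      obtain ⟨x, hx⟩ := hKn
      exact ⟨L (n + 1) x, by simpa using hx⟩) (by
      intro x hx
      show (L (n + 1)).symm (-x) ∈ K
      rw [map_neg]
      exact hKs _ hx)
    (L (n + 1) (Pi.single 0 1, 0)) (L (n + 1) (0, Pi.single 0 1)) (by
      rw [om_L, std_f]; simp)
  rw [finrank_EV] at h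
  have h2 := transfer' hCAP hSQ hCAP2 n K _ (by positivity) h
  have e : 4 * Real.sqrt (2 * ((n + 1 : ℕ) : ℝ)) / Real.pi =
      4 / Real.pi * Real.sqrt (2 * (n + 1)) := by
    push_cast
    ring
  rw [e] at h2
  exact h2

end Pool.Agent.Y52.SJ
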