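import Pool.Agent.Y52.SJ.Stm3

/-!
# Project SJ, last group: symmetric convex domains with an almost unconditional Lagrangian section
-/

set_option autoImplicit false

namespace Pool.Agent.Y52.SJ

/-- `K = -K`, and for `(q, p) ∈ K` and all signs `a i` the point `((a i q_i / A)_i, 0)` is in `K`:
the unconditional hull of the `q`-projection of `K` is contained in `A` times the `q`-section. -/
def AlmostUncond {m : ℕ} (A : ℝ) (K : Set ((Fin m → ℝ) × (Fin m → ℝ))) : Prop :=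
  (∀ z ∈ K, -z ∈ K) ∧ ∀ z ∈ K, ∀ a : Fin m → ℝ, (∀ i, |a i| = 1) →
    ((fun i => A⁻¹ * (a i * z.1 i), 0) : (Fin m → ℝ) × (Fin m → ℝ)) ∈ K

/-- SC: the unconditional part of the section. -/
def S_SC : Prop := ∀ (m : ℕ) (A : ℝ), 1 ≤ A → ∀ K : Set ((Fin m → ℝ) × (Fin m → ℝ)),
  IsOpen K → Convex ℝ K → Bornology.IsBounded K → K.Nonempty → AlmostUncond A K →
  ∃ S : Set (Fin m → ℝ), Body S ∧ (∀ z ∈ K, A⁻¹ • z.1 ∈ S) ∧
    ∀ q ∈ S, ∀ r : ℝ, 0 < r → r < 1 →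
      ((r • q, 0) : (Fin m → ℝ) × (Fin m → ℝ)) ∈ K

/-- PK: the largest symplectic pairing of the polar, and the bipolar theorem. -/
def S_PK : Prop := ∀ (m : ℕ), 0 < m → ∀ K : Set ((Fin m → ℝ) × (Fin m → ℝ)),
  IsOpen K → Convex ℝ K → Bornology.IsBounded K → K.Nonempty → (∀ z ∈ K, -z ∈ K) →
  ∃ (w w' : (Fin m → ℝ) × (Fin m → ℝ)) (H : ℝ), 0 < H ∧ std w w' = H ∧
    (∀ z ∈ K, (∑ i, z.1 i * w.1 i + ∑ i, z.2 i * w.2 i) ^ 2 ≤ 1 ∧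
      (∑ i, z.1 i * w'.1 i + ∑ i, z.2 i * w'.2 i) ^ 2 ≤ 1) ∧
    ∀ y : (Fin m → ℝ) × (Fin m → ℝ), (∀ z ∈ K, ∑ i, z.1 i * y.1 i + ∑ i, z.2 i * y.2 i ≤ 1) →
      ((H⁻¹ • y.2, -(H⁻¹ • y.1)) : (Fin m → ℝ) × (Fin m → ℝ)) ∈ closure K

end Pool.Agent.Y52.SJ
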