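import Pool.Agent.Y52.SJ.Unc
import Pool.Agent.Y52.SJ.Stm6

/-!
# Project SJ: symmetric convex domains with an almost unconditional Lagrangian section, assembly
-/

set_option autoImplicit false

namespace Pool.Agent.Y52.SJ

/-- Upper bound for the cylindrical capacity by two functionals. -/
theorem upper2 (hWITT : S_WITT) (hSQ : S_SQ) (hCAP2 : S_CAP2) (n : ℕ)
    (K : Set ((Fin (n + 1) → ℝ) × (Fin (n + 1) → ℝ)))
    (w w' : (Fin (n + 1) → ℝ) × (Fin (n + 1) → ℝ)) (h : ℝ)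
    (hh : 0 < h) (hww : std w w' = h)
    (hK : ∀ z ∈ K, (∑ i, z.1 i * w.1 i + ∑ i, z.2 i * w.2 i) ^ 2 ≤ 1 ∧
      (∑ i, z.1 i * w'.1 i + ∑ i, z.2 i * w'.2 i) ^ 2 ≤ 1) :
    cylCapacity K ≤ ENNReal.ofReal (4 * h⁻¹) := by
  have ha : om (JJ (n + 1)) (L (n + 1) w) (L (n + 1) w') = h := by
    rw [om_L, hww]
  obtain ⟨ψ, hψ, hψ2⟩ := witt_map' hWITT (JJ (n + 1)) (isCS_JJ _)
    (L (n + 1) (Pi.single 0 1, 0)) (L (n + 1) (0, Pi.single 0 1)) (by rw [om_L, std_f]; simp)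
    (L (n + 1) w) (L (n + 1) w') (by rw [ha]; exact hh)
  have h2 := hCAP2 hSQ n K (trf (n + 1) ψ) 0 h⁻¹ (inv_nonneg.2 hh.le) (by
    intro x y
    rw [← om_L, ← om_L x y]
    have := hψ (L (n + 1) x) (L (n + 1) y)
    simpa [trf_apply] using this) (by
    intro z hz
    have h3 := hψ2 (L (n + 1) z)
    have e1 : ψ (L (n + 1) z) = L (n + 1) (trf (n + 1) ψ z) := by
      rw [trf_apply]; simp
    rw [e1, ha, om_L, om_L, std_e, std_f, inner_L, inner_L] at h3
    obtain ⟨h4, h5⟩ := hK z hz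
    have h6 : ((Real.sqrt h)⁻¹) ^ 2 = h⁻¹ := by rw [inv_pow, Real.sq_sqrt hh.le]
    have h7 : 0 < h⁻¹ := inv_pos.2 hh
    rw [zero_add]
    constructor
    · rw [h3.2, mul_pow, h6]
      nlinarith
    · have h8 : (trf (n + 1) ψ z).2 0 =
          -((Real.sqrt h)⁻¹ * (∑ i, z.1 i * w.1 i + ∑ i, z.2 i * w.2 i)) := by
        linarith [h3.1]
      rw [h8, neg_sq, mul_pow, h6]
      nlinarith)
  exact h2

/-- Symmetric convex domains with an almost unconditional Lagrangian section. -/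
theorem almost (hWITT : S_WITT) (hSQ : S_SQ) (hCAP2 : S_CAP2) (hPOT : S_POT) (hTRA : S_TRA)
    (hPRD : S_PRD) (hSHR : S_SHR) (hEMB : S_EMB) (hSC : S_SC) (hPK : S_PK) (n : ℕ) (A : ℝ)
    (hA : 1 ≤ A)
    (K : Set ((Fin (n + 1) → ℝ) × (Fin (n + 1) → ℝ))) (hKo : IsOpen K)
    (hKc : Convex ℝ K) (hKb : Bornology.IsBounded K) (hKn : K.Nonempty)
    (hKu : AlmostUncond A K) :
    cylCapacity K ≤ ENNReal.ofReal (16 * Real.exp 1 * A) * gromovWidth K := by
  have hA0 : 0 < A := lt_of_lt_of_le one_pos hA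
  obtain ⟨S, hS, hPS, hSr⟩ := hSC (n + 1) A hA K hKo hKc hKb hKn hKu
  obtain ⟨w, w', H, hH, hww, hb, hpol⟩ := hPK (n + 1) (Nat.succ_pos n) K hKo hKc hKb hKn hKu.1
  have hup := upper2 hWITT hSQ hCAP2 n K w w' H hH hww hb
  have hcs : ∀ x ∈ closure K, -x ∈ closure K := by
    intro x hx
    have h1 : Set.MapsTo (fun x : (Fin (n + 1) → ℝ) × (Fin (n + 1) → ℝ) => -x) (closure K)
      (closure K) := Set.MapsTo.closure (fun x hx => hKu.1 x hx) continuous_neg
    exact h1 hx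
  have h0K : (0 : (Fin (n + 1) → ℝ) × (Fin (n + 1) → ℝ)) ∈ K := by
    obtain ⟨x, hx⟩ := hKn
    have h1 := hKc hx (hKu.1 x hx) (by norm_num : (0 : ℝ) ≤ 1 / 2) (by norm_num : (0 : ℝ) ≤ 1 / 2)
      (by norm_num)
    simpa using h1
  have hcl : ∀ x ∈ closure K, ∀ r : ℝ, 0 < r → r < 1 → r • x ∈ K := by
    intro x hx r hr0 hr1
    have h1 := hKc.combo_interior_closure_mem_interior (x := 0) (y := x)
      (by rw [hKo.interior_eq]; exact h0K) hx (a := 1 - r) (b := r) (by linarith) hr0.le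
      (by ring)
    rw [smul_zero, zero_add, hKo.interior_eq] at h1
    exact h1
  refine hup.trans ?_
  have hlow : ∀ r : ℝ, 0 < r → r < 1 / 2 →
      ENNReal.ofReal (16 * r ^ 2 * H⁻¹) ≤
        ENNReal.ofReal (16 * Real.exp 1 * A) * gromovWidth K := by
    intro r hr0 hr1
    have h1 := hEMB hPOT hTRA hPRD hSHR n S hS K r (r * (A⁻¹ * H⁻¹)) hr0
      (mul_pos hr0 (mul_pos (inv_pos.2 hA0) (inv_pos.2 hH))) (by
        intro q hq p hpp
        have h2 : ((r • q + r • q, 0) : (Fin (n + 1) → ℝ) × (Fin (n + 1) → ℝ)) ∈ K := by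
          have h3 := hSr q hq (2 * r) (by linarith) (by linarith)
          convert h3 using 2
          rw [← add_smul]; congr 1; ring
        have h4 := hpol (A⁻¹ • p, 0) (by
          intro z hz
          have h5 := hpp _ (hPS z hz)
          simp only [Pi.smul_apply, smul_eq_mul] at h5
          simp only [Pi.smul_apply, smul_eq_mul, Pi.zero_apply, mul_zero,
            Finset.sum_const_zero, add_zero]
          calc ∑ i, z.1 i * (A⁻¹ * p i) = ∑ i, A⁻¹ * z.1 i * p i :=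
                Finset.sum_congr rfl fun i _ => by ring
            _ ≤ 1 := h5)
        have h6 := hcl _ (hcs _ h4) (2 * r) (by linarith) (by linarith)
        have h7 := hKc h2 h6 (by norm_num : (0 : ℝ) ≤ 1 / 2) (by norm_num : (0 : ℝ) ≤ 1 / 2)
          (by norm_num)
        convert h7 using 1
        ext i
        · simp
          ring
        · simp
          ring)
    calc ENNReal.ofReal (16 * r ^ 2 * H⁻¹)
        = ENNReal.ofReal (16 * Real.exp 1 * A) *
          ENNReal.ofReal (r * (r * (A⁻¹ * H⁻¹)) * Real.exp (-1)) := by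
          rw [← ENNReal.ofReal_mul (by positivity)]
          congr 1
          have h1 : Real.exp 1 * Real.exp (-1) = 1 := by
            rw [← Real.exp_add]; simp
          have h2 : A * A⁻¹ = 1 := mul_inv_cancel₀ hA0.ne'
          linear_combination (-16 * r ^ 2 * H⁻¹ * (A * A⁻¹)) * h1 - (16 * r ^ 2 * H⁻¹) * h2
      _ ≤ _ := by gcongr
  have hlim : Filter.Tendsto (fun r : ℝ => ENNReal.ofReal (16 * r ^ 2 * H⁻¹))
      (nhdsWithin (1 / 2) (Set.Iio (1 / 2))) (nhds (ENNReal.ofReal (4 * H⁻¹))) := by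
    have h1 : Filter.Tendsto (fun r : ℝ => 16 * r ^ 2 * H⁻¹) (nhds (1 / 2))
        (nhds (16 * (1 / 2) ^ 2 * H⁻¹)) := by
      have : Continuous (fun r : ℝ => 16 * r ^ 2 * H⁻¹) := by fun_prop
      exact this.tendsto _
    have h2 : (16 * (1 / 2) ^ 2 * H⁻¹ : ℝ) = 4 * H⁻¹ := by ring
    rw [h2] at h1
    exact (ENNReal.tendsto_ofReal h1).mono_left nhdsWithin_le_nhds
  refine le_of_tendsto hlim ?_
  have h3 : ∀ᶠ r : ℝ in nhdsWithin (1 / 2) (Set.Iio (1 / 2)), 0 < r :=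
    nhdsWithin_le_nhds (Ioi_mem_nhds (by norm_num))
  filter_upwards [h3, self_mem_nhdsWithin] with r hr0 hr1
  exact hlow r hr0 hr1

end Pool.Agent.Y52.SJ
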