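import Pool.Agent.Y52.SJ.Abs2
import Pool.Agent.Y52.SJ.Stm3

/-!
# Project SJ: unconditional convex domains, assembly
-/

set_option autoImplicit false

namespace Pool.Agent.Y52.SJ

lemma inner_L {n : ℕ} (z w : (Fin n → ℝ) × (Fin n → ℝ)) : inner ℝ (L n z) (L n w) =
    ∑ i, z.1 i * w.1 i + ∑ i, z.2 i * w.2 i := by
  rw [inner_EV]
  rfl

/-- Upper bound for the cylindrical capacity. -/
theorem upper (hWITT : S_WITT) (hSQ : S_SQ) (hCAP2 : S_CAP2) (n : ℕ)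
    (K : Set ((Fin (n + 1) → ℝ) × (Fin (n + 1) → ℝ))) (u v : Fin (n + 1) → ℝ) (h : ℝ)
    (hh : 0 < h) (huv : ∑ i, u i * v i = h)
    (hK : ∀ z ∈ K, (∑ i, u i * z.1 i) ^ 2 ≤ 1 ∧ (∑ i, v i * z.2 i) ^ 2 ≤ 1) :
    cylCapacity K ≤ ENNReal.ofReal (4 * h⁻¹) := by
  have ha : om (JJ (n + 1)) (L (n + 1) (u, 0)) (L (n + 1) (0, v)) = h := by
    rw [om_L, ← huv]
    simp [std]
  obtain ⟨ψ, hψ, hψ2⟩ := witt_map' hWITT (JJ (n + 1)) (isCS_JJ _)
    (L (n + 1) (Pi.single 0 1, 0)) (L (n + 1) (0, Pi.single 0 1)) (by rw [om_L, std_f]; simp)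
    (L (n + 1) (u, 0)) (L (n + 1) (0, v)) (by rw [ha]; exact hh)
  have h2 := hCAP2 hSQ n K (trf (n + 1) ψ) 0 h⁻¹ (inv_nonneg.2 hh.le) (by
    intro x y
    rw [← om_L, ← om_L x y]
    have := hψ (L (n + 1) x) (L (n + 1) y)
    simpa [trf_apply] using this) (by
    intro z hz
    have h3 := hψ2 (L (n + 1) z)
    have e1 : ψ (L (n + 1) z) = L (n + 1) (trf (n + 1) ψ z) := by
      rw [trf_apply]; simp
    rw [e1, ha, om_L, om_L, std_e, std_f, inner_L, inner_L] at h3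
    have e2 : ∑ i, z.1 i * ((u, (0 : Fin (n + 1) → ℝ)) : (Fin (n + 1) → ℝ) × (Fin (n + 1) → ℝ)).1 i
        + ∑ i, z.2 i * ((u, (0 : Fin (n + 1) → ℝ)) : (Fin (n + 1) → ℝ) × (Fin (n + 1) → ℝ)).2 i
        = ∑ i, u i * z.1 i := by
      simp [mul_comm]
    have e3 : ∑ i, z.1 i * (((0 : Fin (n + 1) → ℝ), v) : (Fin (n + 1) → ℝ) × (Fin (n + 1) → ℝ)).1 i
        + ∑ i, z.2 i * (((0 : Fin (n + 1) → ℝ), v) : (Fin (n + 1) → ℝ) × (Fin (n + 1) → ℝ)).2 i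
        = ∑ i, v i * z.2 i := by
      simp [mul_comm]
    rw [e2, e3] at h3
    obtain ⟨h4, h5⟩ := hK z hz
    have h6 : ((Real.sqrt h)⁻¹) ^ 2 = h⁻¹ := by rw [inv_pow, Real.sq_sqrt hh.le]
    have h7 : 0 < h⁻¹ := inv_pos.2 hh
    rw [zero_add]
    constructor
    · rw [h3.2, mul_pow, h6]
      nlinarith
    · have h8 : (trf (n + 1) ψ z).2 0 = -((Real.sqrt h)⁻¹ * ∑ i, u i * z.1 i) := by
        linarith [h3.1]
      rw [h8, neg_sq, mul_pow, h6]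
      nlinarith)
  exact h2

/-- Unconditional convex domains. -/
theorem uncond (hWITT : S_WITT) (hSQ : S_SQ) (hCAP2 : S_CAP2) (hPOT : S_POT) (hTRA : S_TRA)
    (hPRD : S_PRD) (hSHR : S_SHR) (hEMB : S_EMB) (hSEC : S_SEC) (hPOL : S_POL) (n : ℕ)
    (K : Set ((Fin (n + 1) → ℝ) × (Fin (n + 1) → ℝ))) (hKo : IsOpen K)
    (hKc : Convex ℝ K) (hKb : Bornology.IsBounded K) (hKn : K.Nonempty) (hKu : Uncond K) :
    cylCapacity K ≤ ENNReal.ofReal (16 * Real.exp 1) * gromovWidth K := by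
  obtain ⟨S, T, hS, hT, hST, hr⟩ := hSEC (n + 1) K hKo hKc hKb hKn hKu
  obtain ⟨u, v, h, hh, huv, hu, hv, hp⟩ := hPOL (n + 1) (Nat.succ_pos n) S T hS hT
  have hup := upper hWITT hSQ hCAP2 n K u v h hh huv
    (fun z hz => ⟨hu _ (hST z hz).1, hv _ (hST z hz).2⟩)
  refine hup.trans ?_
  have hlow : ∀ r : ℝ, 0 < r → r < 1 / 2 →
      ENNReal.ofReal (16 * r ^ 2 * h⁻¹) ≤ ENNReal.ofReal (16 * Real.exp 1) * gromovWidth K := by
    intro r hr0 hr1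
    have h1 := hEMB hPOT hTRA hPRD hSHR n S hS K r (r * h⁻¹) hr0
      (mul_pos hr0 (inv_pos.2 hh)) (by
        intro q hq p hpp
        have h2 := hr q hq (h⁻¹ • p) (hp p hpp) r hr0 hr1
        rw [smul_smul] at h2
        exact h2)
    calc ENNReal.ofReal (16 * r ^ 2 * h⁻¹)
        = ENNReal.ofReal (16 * Real.exp 1) *
          ENNReal.ofReal (r * (r * h⁻¹) * Real.exp (-1)) := by
          rw [← ENNReal.ofReal_mul (by positivity)]
          congr 1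
          have : Real.exp 1 * Real.exp (-1) = 1 := by
            rw [← Real.exp_add]; simp
          linear_combination (-16 * r ^ 2 * h⁻¹) * this
      _ ≤ _ := by gcongr
  have hlim : Filter.Tendsto (fun r : ℝ => ENNReal.ofReal (16 * r ^ 2 * h⁻¹))
      (nhdsWithin (1 / 2) (Set.Iio (1 / 2))) (nhds (ENNReal.ofReal (4 * h⁻¹))) := by
    have h1 : Filter.Tendsto (fun r : ℝ => 16 * r ^ 2 * h⁻¹) (nhds (1 / 2))
        (nhds (16 * (1 / 2) ^ 2 * h⁻¹)) := by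
      have : Continuous (fun r : ℝ => 16 * r ^ 2 * h⁻¹) := by fun_prop
      exact this.tendsto _
    have h2 : (16 * (1 / 2) ^ 2 * h⁻¹ : ℝ) = 4 * h⁻¹ := by ring
    rw [h2] at h1
    exact (ENNReal.tendsto_ofReal h1).mono_left nhdsWithin_le_nhds
  refine le_of_tendsto hlim ?_
  have h3 : ∀ᶠ r : ℝ in nhdsWithin (1 / 2) (Set.Iio (1 / 2)), 0 < r :=
    nhdsWithin_le_nhds (Ioi_mem_nhds (by norm_num))
  filter_upwards [h3, self_mem_nhdsWithin] with r hr0 hr1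
  exact hlow r hr0 hr1

end Pool.Agent.Y52.SJ
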