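import Pool.Agent.Y988.SJ.Emb
import Pool.Agent.Y52.SJ.Unc

/-!
# Project SJ: anti-blocking convex domains (the ball embedding lands in the positive orthant)
-/

set_option autoImplicit false

namespace Pool.Agent.Y52.SJ

open Pool.Agent.Y988.SJ

/-- the embedding -/
theorem embPos {n : ℕ} (hPOT : S_POT) (hTRA : S_TRA) (hPRD : S_PRD) (hSHR : S_SHR)
    (S : Set (Fin (n + 1) → ℝ)) (hS : Body S)
    (K : Set ((Fin (n + 1) → ℝ) × (Fin (n + 1) → ℝ))) (α β : ℝ) (hα : 0 < α) (hβ : 0 < β)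
    (hK : ∀ q ∈ S, (∀ i, 0 < q i) → ∀ p : Fin (n + 1) → ℝ, (∀ i, 0 < p i) →
      (∀ t ∈ S, ∑ i, t i * p i ≤ 1) → (α • q, β • p) ∈ K)
    (c : ℝ) (hc : 0 < c) (hc1 : c < 1) :
    ∃ r : ℝ, 0 < r ∧ Real.pi * r ^ 2 = α * β * Real.exp (-1) * c ∧
      SympEmb (ball (n + 1) r) K := by
  have hπ := Real.pi_pos
  have hA : 0 < α * β * Real.exp (-1) := by positivity
  obtain ⟨κ, hκ, hκ2⟩ : ∃ κ : ℝ, 0 < κ ∧ κ ^ 2 = α * β * Real.exp (-1) :=
    ⟨Real.sqrt (α * β * Real.exp (-1)), Real.sqrt_pos.2 hA, Real.sq_sqrt hA.le⟩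
  obtain ⟨ρ, hρ, hρ2⟩ : ∃ ρ : ℝ, 0 < ρ ∧ ρ ^ 2 = c / Real.pi :=
    ⟨Real.sqrt (c / Real.pi), Real.sqrt_pos.2 (by positivity), Real.sq_sqrt (by positivity)⟩
  refine ⟨κ * ρ, by positivity, ?_, ?_⟩
  · rw [mul_pow, hκ2, hρ2]
    field_simp
  obtain ⟨ε, hε, g, hg, hεg⟩ : ∃ ε : ℝ, 0 < ε ∧ ∃ g : ℝ, 0 < g ∧
      ((n : ℝ) + 1) * (Real.pi * g) + ε = 1 - c := by
    have hd : 0 < 1 - c := by linarith
    refine ⟨(1 - c) / 2, by positivity, (1 - c) / (2 * ((n : ℝ) + 1) * Real.pi), by positivity, ?_⟩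
    field_simp
    ring
  obtain ⟨V, hV1, hV2⟩ := hPOT (n + 1) S hS ε hε
  obtain ⟨hσ1, hσ2, hσ3⟩ := hTRA g hg
  obtain ⟨hP1, hP2, hP3⟩ := hPRD (sg g) hσ1 hσ2 (fun z u v => (hσ3 z).2.2.2.2 u v) (n + 1)
  obtain ⟨hV3, hV4, hV5⟩ := hSHR (n + 1) V hV1
  change ContDiff ℝ ((⊤ : ℕ∞) : WithTop ℕ∞) (Sg (n + 1) (sg g)) at hP1
  change Function.Injective (Sg (n + 1) (sg g)) at hP2
  change ∀ z u v, std (fderiv ℝ (Sg (n + 1) (sg g)) z u) (fderiv ℝ (Sg (n + 1) (sg g)) z v) =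
    std u v at hP3
  change ContDiffOn ℝ ((⊤ : ℕ∞) : WithTop ℕ∞) (shr V) (Dom (n + 1)) at hV3
  change Set.InjOn (shr V) (Dom (n + 1)) at hV4
  have hmap : ∀ z, Sg (n + 1) (sg g) z ∈ Dom (n + 1) := fun z i => (hσ3 _).2.2.1
  have hPM : ContDiff ℝ ((⊤ : ℕ∞) : WithTop ℕ∞)
      (fun z => Sg (n + 1) (sg g) (LL (n + 1) κ⁻¹ κ⁻¹ z)) :=
    hP1.comp (LL (n + 1) κ⁻¹ κ⁻¹).contDiff
  refine ⟨fun z => LL (n + 1) α β (shr V (Sg (n + 1) (sg g) (LL (n + 1) κ⁻¹ κ⁻¹ z))),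
    ?_, ?_, ?_, ?_⟩
  · exact (LL (n + 1) α β).contDiff.comp_contDiffOn
      (hV3.comp hPM.contDiffOn fun z _ => hmap _)
  · intro z _ z' _ h
    have h1 := hV4 (hmap _) (hmap _) (LL_inj hα hβ h)
    exact LL_inj (by positivity) (by positivity) (hP2 h1)
  · intro z hz
    have hz1 : ∑ i, (z.1 i ^ 2 + z.2 i ^ 2) < (κ * ρ) ^ 2 := hz
    set z' := LL (n + 1) κ⁻¹ κ⁻¹ z with hz'
    have h2 : ∑ i, (z'.1 i ^ 2 + z'.2 i ^ 2) < c / Real.pi := by
      have h3 : ∑ i, (z'.1 i ^ 2 + z'.2 i ^ 2) = (κ⁻¹) ^ 2 * ∑ i, (z.1 i ^ 2 + z.2 i ^ 2) := by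
        rw [Finset.mul_sum]
        refine Finset.sum_congr rfl fun i _ => ?_
        rw [hz', LL_apply]
        simp only [Pi.smul_apply, smul_eq_mul]
        ring
      rw [h3, ← hρ2]
      have h4 : (κ⁻¹) ^ 2 * (κ * ρ) ^ 2 = ρ ^ 2 := by
        field_simp
      rw [← h4]
      exact mul_lt_mul_of_pos_left hz1 (by positivity)
    obtain ⟨s, hs⟩ : ∃ s : Fin (n + 1) → ℝ, s = (Sg (n + 1) (sg g) z').1 := ⟨_, rfl⟩
    obtain ⟨I, hI⟩ : ∃ I : Fin (n + 1) → ℝ, I = (Sg (n + 1) (sg g) z').2 := ⟨_, rfl⟩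
    have hs1 : ∀ i, s i < 1 := fun i => by rw [hs]; exact (hσ3 _).2.1
    have hs0 : ∀ i, 0 < s i := fun i => by rw [hs]; exact (hσ3 _).1
    have hI0 : ∀ i, 0 < I i := fun i => by rw [hI]; exact (hσ3 _).2.2.1
    have hI1 : ∀ i, I i ≤ Real.pi * (z'.1 i ^ 2 + z'.2 i ^ 2) + Real.pi * g := fun i => by
      rw [hI]; exact (hσ3 (z'.1 i, z'.2 i)).2.2.2.1.le
    have hsum : ∑ i, I i + ε ≤ 1 := by
      have h5 : ∑ i, I i ≤ ∑ i : Fin (n + 1), (Real.pi * (z'.1 i ^ 2 + z'.2 i ^ 2) +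
          Real.pi * g) := Finset.sum_le_sum fun i _ => hI1 i
      rw [Finset.sum_add_distrib, ← Finset.mul_sum, Finset.sum_const, Finset.card_univ,
        Fintype.card_fin, nsmul_eq_mul] at h5
      have h6 : Real.pi * ∑ i, (z'.1 i ^ 2 + z'.2 i ^ 2) < c := by
        rwa [lt_div_iff₀ hπ, mul_comm] at h2
      push_cast at h5
      linarith
    obtain ⟨hG1, hG2⟩ := hV2 I hI0
    have hshr : shr V (Sg (n + 1) (sg g) z') =
        (fun k => Real.exp (s k - 1 + fderiv ℝ V I (Pi.single k 1)),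
          fun k => I k * Real.exp (-(s k) - fderiv ℝ V I (Pi.single k 1))) := by
      rw [hs, hI]
      rfl
    show LL (n + 1) α β (shr V (Sg (n + 1) (sg g) z')) ∈ K
    rw [hshr, LL_apply]
    refine hK _ (hS.solid _ hG1 _ fun i => ?_) (fun i => Real.exp_pos _) _
      (fun i => mul_pos (hI0 i) (Real.exp_pos _)) fun t ht => ?_
    · rw [abs_of_pos (Real.exp_pos _), abs_of_pos (Real.exp_pos _)]
      exact Real.exp_le_exp.2 (by linarith [hs1 i])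
    · have h7 : (fun i => |t i|) ∈ S := hS.solid t ht _ fun i => (abs_abs (t i)).le
      refine le_trans (Finset.sum_le_sum fun i _ => ?_) ((hG2 _ h7).trans hsum)
      have h8 : Real.exp (-(s i) - fderiv ℝ V I (Pi.single i 1)) ≤
          Real.exp (-(fderiv ℝ V I (Pi.single i 1))) :=
        Real.exp_le_exp.2 (by linarith [hs0 i])
      calc t i * (I i * Real.exp (-(s i) - fderiv ℝ V I (Pi.single i 1)))
          ≤ |t i| * (I i * Real.exp (-(s i) - fderiv ℝ V I (Pi.single i 1))) :=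
            mul_le_mul_of_nonneg_right (le_abs_self _)
              (mul_nonneg (hI0 i).le (Real.exp_pos _).le)
        _ ≤ |t i| * (I i * Real.exp (-(fderiv ℝ V I (Pi.single i 1)))) :=
            mul_le_mul_of_nonneg_left (mul_le_mul_of_nonneg_left h8 (hI0 i).le) (abs_nonneg _)
        _ = I i * Real.exp (-(fderiv ℝ V I (Pi.single i 1))) * |t i| := by ring
  · intro z _ u v
    have hd1 : HasFDerivAt (Sg (n + 1) (sg g))
        (fderiv ℝ (Sg (n + 1) (sg g)) (LL (n + 1) κ⁻¹ κ⁻¹ z)) (LL (n + 1) κ⁻¹ κ⁻¹ z) :=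
      (hP1.differentiable (by simp)).differentiableAt.hasFDerivAt
    have hd2 : HasFDerivAt (shr V)
        (fderiv ℝ (shr V) (Sg (n + 1) (sg g) (LL (n + 1) κ⁻¹ κ⁻¹ z)))
        (Sg (n + 1) (sg g) (LL (n + 1) κ⁻¹ κ⁻¹ z)) :=
      ((hV3.contDiffAt (isOpen_Dom.mem_nhds (hmap _))).differentiableAt (by simp)).hasFDerivAt
    have hd3 := ((LL (n + 1) α β).hasFDerivAt.comp z
      (hd2.comp z (hd1.comp z (LL (n + 1) κ⁻¹ κ⁻¹).hasFDerivAt)))
    have hd4 : fderiv ℝ (fun z => LL (n + 1) α β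
        (shr V (Sg (n + 1) (sg g) (LL (n + 1) κ⁻¹ κ⁻¹ z)))) z = _ := hd3.fderiv
    rw [hd4]
    simp only [ContinuousLinearMap.comp_apply]
    rw [std_LL, hV5 _ (hmap _), hP3, std_LL]
    have h9 : α * β * (Real.exp (-1) * (κ⁻¹ * κ⁻¹ * std u v)) =
        (α * β * Real.exp (-1)) * (κ⁻¹ * κ⁻¹) * std u v := by ring
    rw [h9, ← hκ2]
    field_simp


/-- `D` lies in the open positive orthant and is closed under decreasing the coordinates. -/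
def AntiBlock {m : ℕ} (D : Set ((Fin m → ℝ) × (Fin m → ℝ))) : Prop :=
  (∀ z ∈ D, ∀ i, 0 < z.1 i ∧ 0 < z.2 i) ∧
  ∀ z ∈ D, ∀ w : (Fin m → ℝ) × (Fin m → ℝ),
    (∀ i, 0 < w.1 i ∧ w.1 i ≤ z.1 i ∧ 0 < w.2 i ∧ w.2 i ≤ z.2 i) → w ∈ D

/-- The open unconditional hull. -/
def hull {m : ℕ} (D : Set ((Fin m → ℝ) × (Fin m → ℝ))) : Set ((Fin m → ℝ) × (Fin m → ℝ)) :=
  {z | ∃ w ∈ D, ∀ i, |z.1 i| < w.1 i ∧ |z.2 i| < w.2 i}

lemma hull_open {m : ℕ} (D : Set ((Fin m → ℝ) × (Fin m → ℝ))) : IsOpen (hull D) := by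
  have h : hull D = ⋃ w ∈ D, {z | ∀ i, |z.1 i| < w.1 i ∧ |z.2 i| < w.2 i} := by
    ext z; simp [hull]
  rw [h]
  refine isOpen_biUnion fun w _ => ?_
  have h2 : {z : (Fin m → ℝ) × (Fin m → ℝ) | ∀ i, |z.1 i| < w.1 i ∧ |z.2 i| < w.2 i} =
      ⋂ i, ({z | |z.1 i| < w.1 i} ∩ {z | |z.2 i| < w.2 i}) := by
    ext z; simp
  rw [h2]
  refine isOpen_iInter_of_finite fun i => IsOpen.inter ?_ ?_
  · exact isOpen_lt (by fun_prop) continuous_const
  · exact isOpen_lt (by fun_prop) continuous_const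

lemma hull_convex {m : ℕ} (D : Set ((Fin m → ℝ) × (Fin m → ℝ))) (hD : Convex ℝ D) :
    Convex ℝ (hull D) := by
  rintro z ⟨w, hw, hz⟩ z' ⟨w', hw', hz'⟩ a b ha hb hab
  refine ⟨a • w + b • w', hD hw hw' ha hb hab, fun i => ?_⟩
  have key : ∀ x x' y y' : ℝ, |x| < y → |x'| < y' → |a * x + b * x'| < a * y + b * y' := by
    intro x x' y y' h1 h2
    have h3 : |a * x + b * x'| ≤ a * |x| + b * |x'| := by
      refine (abs_add_le _ _).trans ?_
      rw [abs_mul, abs_mul, abs_of_nonneg ha, abs_of_nonneg hb]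
    rcases ha.eq_or_lt with h0 | h0
    · have hb1 : b = 1 := by rw [← h0] at hab; linarith
      rw [← h0, hb1] at h3 ⊢
      linarith
    · have h4 : a * |x| < a * y := mul_lt_mul_of_pos_left h1 h0
      have h5 : b * |x'| ≤ b * y' := mul_le_mul_of_nonneg_left h2.le hb
      linarith
  exact ⟨key _ _ _ _ (hz i).1 (hz' i).1, key _ _ _ _ (hz i).2 (hz' i).2⟩

lemma hull_uncond {m : ℕ} (D : Set ((Fin m → ℝ) × (Fin m → ℝ))) : Uncond (hull D) := by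
  rintro z ⟨w, hw, hz⟩ a b ha hb
  refine ⟨w, hw, fun i => ?_⟩
  simp only [abs_mul, ha i, hb i, one_mul]
  exact hz i

lemma hull_bdd {m : ℕ} (D : Set ((Fin m → ℝ) × (Fin m → ℝ))) (hD : Bornology.IsBounded D) :
    Bornology.IsBounded (hull D) := by
  obtain ⟨R, hR⟩ := hD.exists_norm_le
  rw [isBounded_iff_forall_norm_le]
  refine ⟨R, ?_⟩
  rintro z ⟨w, hw, hz⟩
  have h1 := hR w hw
  have h2 : ‖w.1‖ ≤ R := (norm_fst_le w).trans h1
  have h3 : ‖w.2‖ ≤ R := (norm_snd_le w).trans h1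
  have hR0 : 0 ≤ R := (norm_nonneg _).trans h1
  refine norm_prod_le_iff.2 ⟨?_, ?_⟩
  · refine (pi_norm_le_iff_of_nonneg hR0).2 fun i => ?_
    exact ((hz i).1.le.trans (le_abs_self _)).trans ((norm_le_pi_norm w.1 i).trans h2)
  · refine (pi_norm_le_iff_of_nonneg hR0).2 fun i => ?_
    exact ((hz i).2.le.trans (le_abs_self _)).trans ((norm_le_pi_norm w.2 i).trans h3)

lemma subset_hull {m : ℕ} (D : Set ((Fin m → ℝ) × (Fin m → ℝ))) (hDo : IsOpen D)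
    (hD : AntiBlock D) : D ⊆ hull D := by
  intro z hz
  have hc : Filter.Tendsto (fun t : ℝ => (1 + t) • z) (nhds 0) (nhds ((1 + (0 : ℝ)) • z)) := by
    have : Continuous (fun t : ℝ => (1 + t) • z) := by fun_prop
    exact this.tendsto 0
  rw [add_zero, one_smul] at hc
  have h1 : ∀ᶠ t : ℝ in nhds 0, (1 + t) • z ∈ D := hc.eventually (hDo.mem_nhds hz)
  obtain ⟨δ, hδ, h2⟩ := Metric.eventually_nhds_iff.1 h1
  have h3 := h2 (y := δ / 2) (by rw [dist_zero_right, Real.norm_eq_abs, abs_of_pos (by linarith)]; linarith)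
  refine ⟨_, h3, fun i => ?_⟩
  obtain ⟨h4, h5⟩ := hD.1 z hz i
  simp only [Prod.smul_fst, Prod.smul_snd, Pi.smul_apply, smul_eq_mul]
  rw [abs_of_pos h4, abs_of_pos h5]
  constructor <;> nlinarith

lemma SympEmb.mono_left {m : ℕ} {U U' W : Set ((Fin m → ℝ) × (Fin m → ℝ))} (h : U ⊆ U')
    (hU : SympEmb U' W) : SympEmb U W := by
  obtain ⟨φ, h1, h2, h3, h4⟩ := hU
  exact ⟨φ, h1.mono h, h2.mono h, h3.mono_left h, fun z hz => h4 z (h hz)⟩

lemma cyl_mono {n : ℕ} {D K : Set ((Fin (n + 1) → ℝ) × (Fin (n + 1) → ℝ))} (h : D ⊆ K) :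
    cylCapacity D ≤ cylCapacity K := by
  unfold cylCapacity
  refine le_iInf₂ fun R hR => ?_
  exact iInf₂_le_of_le R ⟨hR.1, hR.2.mono_left h⟩ le_rfl

/-- Anti-blocking convex domains. -/
theorem antiblock (hWITT : S_WITT) (hSQ : S_SQ) (hCAP2 : S_CAP2) (hPOT : S_POT) (hTRA : S_TRA)
    (hPRD : S_PRD) (hSHR : S_SHR) (hSEC : S_SEC) (hPOL : S_POL) (n : ℕ)
    (D : Set ((Fin (n + 1) → ℝ) × (Fin (n + 1) → ℝ))) (hDo : IsOpen D)
    (hDc : Convex ℝ D) (hDb : Bornology.IsBounded D) (hDn : D.Nonempty) (hDa : AntiBlock D) :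
    cylCapacity D ≤ ENNReal.ofReal (16 * Real.exp 1) * gromovWidth D := by
  have hsub := subset_hull D hDo hDa
  obtain ⟨S, T, hS, hT, hST, hr⟩ := hSEC (n + 1) (hull D) (hull_open D) (hull_convex D hDc)
    (hull_bdd D hDb) (hDn.mono hsub) (hull_uncond D)
  obtain ⟨u, v, h, hh, huv, hu, hv, hp⟩ := hPOL (n + 1) (Nat.succ_pos n) S T hS hT
  have hup := upper hWITT hSQ hCAP2 n (hull D) u v h hh huv
    (fun z hz => ⟨hu _ (hST z hz).1, hv _ (hST z hz).2⟩)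
  refine ((cyl_mono hsub).trans hup).trans ?_
  have hlow : ∀ r : ℝ, 0 < r → r < 1 / 2 →
      ENNReal.ofReal (16 * r ^ 2 * h⁻¹) ≤ ENNReal.ofReal (16 * Real.exp 1) * gromovWidth D := by
    intro r hr0 hr1
    have hh' : 0 < h⁻¹ := inv_pos.2 hh
    have h1 := gw_lower D _ (embPos hPOT hTRA hPRD hSHR S hS D r (r * h⁻¹) hr0
      (mul_pos hr0 hh') (by
        intro q hq hq0 p hp0 hpp
        have h2 := hr q hq (h⁻¹ • p) (hp p hpp) r hr0 hr1
        rw [smul_smul] at h2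
        obtain ⟨w, hw, hw2⟩ := h2
        refine hDa.2 w hw _ fun i => ⟨?_, ?_, ?_, ?_⟩
        · exact mul_pos hr0 (hq0 i)
        · exact (le_abs_self _).trans (hw2 i).1.le
        · exact mul_pos (mul_pos hr0 hh') (hp0 i)
        · exact (le_abs_self _).trans (hw2 i).2.le))
    calc ENNReal.ofReal (16 * r ^ 2 * h⁻¹)
        = ENNReal.ofReal (16 * Real.exp 1) *
          ENNReal.ofReal (r * (r * h⁻¹) * Real.exp (-1)) := by
          rw [← ENNReal.ofReal_mul (by positivity)]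
          congr 1
          have : Real.exp 1 * Real.exp (-1) = 1 := by
            rw [← Real.exp_add]; simp
          linear_combination (-16 * r ^ 2 * h⁻¹) * this
      _ ≤ _ := by gcongr
  have hlim : Filter.Tendsto (fun r : ℝ => ENNReal.ofReal (16 * r ^ 2 * h⁻¹))
      (nhdsWithin (1 / 2) (Set.Iio (1 / 2))) (nhds (ENNReal.ofReal (4 * h⁻¹))) := by
    have h1 : Filter.Tendsto (fun r : ℝ => 16 * r ^ 2 * h⁻¹) (nhds (1 / 2))
        (nhds (16 * (1 / 2) ^ 2 * h⁻¹)) := by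
      have : Continuous (fun r : ℝ => 16 * r ^ 2 * h⁻¹) := by fun_prop
      exact this.tendsto _
    have h2 : (16 * (1 / 2) ^ 2 * h⁻¹ : ℝ) = 4 * h⁻¹ := by ring
    rw [h2] at h1
    exact (ENNReal.tendsto_ofReal h1).mono_left nhdsWithin_le_nhds
  refine le_of_tendsto hlim ?_
  have h3 : ∀ᶠ r : ℝ in nhdsWithin (1 / 2) (Set.Iio (1 / 2)), 0 < r :=
    nhdsWithin_le_nhds (Ioi_mem_nhds (by norm_num))
  filter_upwards [h3, self_mem_nhdsWithin] with r hr0 hr1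
  exact hlow r hr0 hr1

end Pool.Agent.Y52.SJ
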