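import Mathlib

/-!
# Project SJ (MP_548236_gt): cylindrical capacity against Gromov width for convex bodies

Definitions and the statements of the jobs.
-/

set_option autoImplicit false

namespace Pool.Agent.Y52.SJ

/-! ## Abstract symplectic Euclidean spaces -/

section
variable {V : Type} [NormedAddCommGroup V] [InnerProductSpace ℝ V]

/-- `J` is a linear isometry with `J² = -1`. -/
def IsCS (J : V →L[ℝ] V) : Prop :=
  (∀ x, J (J x) = -x) ∧ ∀ x y, inner ℝ (J x) (J y) = inner ℝ x y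

/-- The symplectic form `⟨J x, y⟩`. -/
def om (J : V →L[ℝ] V) (x y : V) : ℝ := inner ℝ (J x) y

/-- `P` multiplies the symplectic form by `s`. -/
def Conf (J P : V →L[ℝ] V) (s : ℝ) : Prop := ∀ x y, om J (P x) (P y) = s * om J x y

/-- `X` is symmetric and anticommutes with `J`. -/
def Adm (J X : V →L[ℝ] V) : Prop :=
  (∀ x y, inner ℝ (X x) y = inner ℝ x (X y)) ∧ ∀ x, X (J x) = -J (X x)

/-- Normal position: a compact convex set containing the closed unit ball such that the unit ball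
is a largest affine conformally symplectic image of itself in the set. -/
structure NF (J : V →L[ℝ] V) (C : Set V) : Prop where
  conv : Convex ℝ C
  cpt : IsCompact C
  ball : ∀ x, ‖x‖ ≤ 1 → x ∈ C
  max : ∀ (P : V →L[ℝ] V) (b : V) (s : ℝ), Conf J P s → (∀ x, ‖x‖ ≤ 1 → b + P x ∈ C) → s ≤ 1
end

/-- MAX: a largest affine conformally symplectic image of the unit ball exists. -/
def S_MAX : Prop := ∀ (V : Type) [NormedAddCommGroup V] [InnerProductSpace ℝ V]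
  [FiniteDimensional ℝ V] [Nontrivial V] (J : V →L[ℝ] V), IsCS J → ∀ C : Set V, IsCompact C →
  (interior C).Nonempty → ∃ (P : V →L[ℝ] V) (b : V) (s : ℝ), 0 < s ∧ Conf J P s ∧
    (∀ x, ‖x‖ ≤ 1 → b + P x ∈ C) ∧
    ∀ (P' : V →L[ℝ] V) (b' : V) (s' : ℝ), Conf J P' s' → (∀ x, ‖x‖ ≤ 1 → b' + P' x ∈ C) → s' ≤ s

/-- NFP: pulling back by the maximal affine map gives the normal position. -/
def S_NFP : Prop := ∀ (V : Type) [NormedAddCommGroup V] [InnerProductSpace ℝ V]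
  [FiniteDimensional ℝ V] (J : V →L[ℝ] V), IsCS J → ∀ C : Set V, IsCompact C → Convex ℝ C →
  ∀ (P : V →L[ℝ] V) (b : V) (s : ℝ), 0 < s → Conf J P s → (∀ x, ‖x‖ ≤ 1 → b + P x ∈ C) →
    (∀ (P' : V →L[ℝ] V) (b' : V) (s' : ℝ), Conf J P' s' → (∀ x, ‖x‖ ≤ 1 → b' + P' x ∈ C) →
      s' ≤ s) →
    NF J {x | b + P x ∈ C} ∧
    ∃ Q : V →L[ℝ] V, Conf J Q s⁻¹ ∧ (∀ x, Q (P x) = x) ∧ ∀ x, P (Q x) = x

/-- VAR: first variation at the normal position. -/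
def S_VAR : Prop := ∀ (V : Type) [NormedAddCommGroup V] [InnerProductSpace ℝ V]
  [FiniteDimensional ℝ V] [Nontrivial V] (J : V →L[ℝ] V), IsCS J → ∀ C : Set V, NF J C →
  ∀ (X : V →L[ℝ] V) (b : V), Adm J X →
    ∃ u : V, ‖u‖ = 1 ∧ (∀ x ∈ C, inner ℝ x u ≤ 1) ∧ 0 ≤ inner ℝ (X u) u + inner ℝ b u

/-- HULL: if every linear functional is somewhere nonnegative on a compact set, then `0` is in the
convex hull. -/
def S_HULL : Prop := ∀ (W : Type) [NormedAddCommGroup W] [NormedSpace ℝ W]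
  [FiniteDimensional ℝ W] (S : Set W), IsCompact S → (∀ f : W →L[ℝ] ℝ, ∃ s ∈ S, 0 ≤ f s) →
  (0 : W) ∈ convexHull ℝ S

/-- LAG: Lagrange multipliers (from HULL). -/
def S_LAG : Prop := S_HULL → ∀ (V : Type) [NormedAddCommGroup V] [InnerProductSpace ℝ V]
  [FiniteDimensional ℝ V] (J : V →L[ℝ] V) (U : Set V), IsCompact U →
  (∀ (X : V →L[ℝ] V) (b : V), Adm J X → ∃ u ∈ U, 0 ≤ inner ℝ (X u) u + inner ℝ b u) →
  ∃ (m : ℕ) (c : Fin m → ℝ) (u : Fin m → V), (∀ i, 0 ≤ c i) ∧ ∑ i, c i = 1 ∧ (∀ i, u i ∈ U) ∧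
    ∑ i, c i • u i = 0 ∧
    ∀ X : V →L[ℝ] V, Adm J X → ∑ i, c i * inner ℝ (X (u i)) (u i) = 0

/-- PAIR: the mean square of the symplectic form over the contact measure. -/
def S_PAIR : Prop := ∀ (V : Type) [NormedAddCommGroup V] [InnerProductSpace ℝ V]
  [FiniteDimensional ℝ V] (J : V →L[ℝ] V), IsCS J → ∀ (m : ℕ) (c : Fin m → ℝ) (u : Fin m → V),
  (∀ i, 0 ≤ c i) → ∑ i, c i = 1 → (∀ i, ‖u i‖ = 1) →
  (∀ X : V →L[ℝ] V, Adm J X → ∑ i, c i * inner ℝ (X (u i)) (u i) = 0) →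
  1 ≤ (Module.finrank ℝ V : ℝ) * ∑ i, ∑ j, c i * c j * (om J (u i) (u j)) ^ 2

/-- GRO: Grothendieck's inequality with constant `29/16` (library: Krivine). -/
def S_GRO : Prop := ∀ (V : Type) [NormedAddCommGroup V] [InnerProductSpace ℝ V]
  [CompleteSpace V] (m : ℕ) (A : Fin m → Fin m → ℝ) (x y : Fin m → V),
  (∀ i, ‖x i‖ = 1) → (∀ i, ‖y i‖ = 1) →
  ∃ ε δ : Fin m → ℝ, (∀ i, |ε i| = 1) ∧ (∀ i, |δ i| = 1) ∧
    ∑ i, ∑ j, A i j * inner ℝ (x i) (y j) ≤ 29 / 16 * ∑ i, ∑ j, A i j * ε i * δ j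

/-- WITT: the symplectic group is transitive on hyperbolic pairs. -/
def S_WITT : Prop := ∀ (V : Type) [NormedAddCommGroup V] [InnerProductSpace ℝ V]
  [FiniteDimensional ℝ V] (J : V →L[ℝ] V), IsCS J → ∀ v v' e f : V, om J v v' = 1 →
  om J e f = 1 → ∃ ψ : V →L[ℝ] V, Conf J ψ 1 ∧ ψ v = e ∧ ψ v' = f

/-! ## The capacities -/

/-- The standard symplectic form of `ℝ^{2n} = ℝ^n × ℝ^n`. -/
def std {n : ℕ} (u v : (Fin n → ℝ) × (Fin n → ℝ)) : ℝ := ∑ i, (u.1 i * v.2 i - u.2 i * v.1 i)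

/-- There is a smooth symplectic embedding of `U` into `W`. -/
def SympEmb {n : ℕ} (U W : Set ((Fin n → ℝ) × (Fin n → ℝ))) : Prop :=
  ∃ φ : (Fin n → ℝ) × (Fin n → ℝ) → (Fin n → ℝ) × (Fin n → ℝ),
    ContDiffOn ℝ ((⊤ : ℕ∞) : WithTop ℕ∞) φ U ∧ Set.InjOn φ U ∧ Set.MapsTo φ U W ∧
    ∀ z ∈ U, ∀ u v : (Fin n → ℝ) × (Fin n → ℝ),
      std (fderiv ℝ φ z u) (fderiv ℝ φ z v) = std u v

/-- The open Euclidean ball of radius `r`. -/
def ball (n : ℕ) (r : ℝ) : Set ((Fin n → ℝ) × (Fin n → ℝ)) :=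
  {z | ∑ i, (z.1 i ^ 2 + z.2 i ^ 2) < r ^ 2}

/-- The open cylinder of radius `R`. -/
def cyl (n : ℕ) (R : ℝ) : Set ((Fin (n + 1) → ℝ) × (Fin (n + 1) → ℝ)) :=
  {z | z.1 0 ^ 2 + z.2 0 ^ 2 < R ^ 2}

/-- The Gromov width, with values in `[0, ∞]`. -/
noncomputable def gromovWidth {n : ℕ} (K : Set ((Fin (n + 1) → ℝ) × (Fin (n + 1) → ℝ))) :
    ENNReal :=
  ⨆ (r : ℝ) (_ : 0 < r ∧ SympEmb (ball (n + 1) r) K), ENNReal.ofReal (Real.pi * r ^ 2)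

/-- The cylindrical capacity, with values in `[0, ∞]`. -/
noncomputable def cylCapacity {n : ℕ} (K : Set ((Fin (n + 1) → ℝ) × (Fin (n + 1) → ℝ))) :
    ENNReal :=
  ⨅ (R : ℝ) (_ : 0 < R ∧ SympEmb K (cyl n R)), ENNReal.ofReal (Real.pi * R ^ 2)

/-- CAP: affine maps give bounds for the capacities. -/
def S_CAP : Prop := ∀ (n : ℕ) (K : Set ((Fin (n + 1) → ℝ) × (Fin (n + 1) → ℝ))),
  (∀ (P : ((Fin (n + 1) → ℝ) × (Fin (n + 1) → ℝ)) →L[ℝ] ((Fin (n + 1) → ℝ) × (Fin (n + 1) → ℝ)))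
    (b : (Fin (n + 1) → ℝ) × (Fin (n + 1) → ℝ)) (s : ℝ), 0 < s →
    (∀ x y, std (P x) (P y) = s * std x y) → (∀ x ∈ ball (n + 1) 1, b + P x ∈ K) →
    ENNReal.ofReal (Real.pi * s) ≤ gromovWidth K) ∧
  (∀ (P : ((Fin (n + 1) → ℝ) × (Fin (n + 1) → ℝ)) →L[ℝ] ((Fin (n + 1) → ℝ) × (Fin (n + 1) → ℝ)))
    (b : (Fin (n + 1) → ℝ) × (Fin (n + 1) → ℝ)) (s : ℝ), 0 ≤ s →
    (∀ x y, std (P x) (P y) = std x y) →
    (∀ x ∈ K, (b + P x).1 0 ^ 2 + (b + P x).2 0 ^ 2 ≤ s) →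
    cylCapacity K ≤ ENNReal.ofReal (Real.pi * s))

end Pool.Agent.Y52.SJ
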